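import Pool.Agent.H55.BZ.Stm

/-!
# Project BZ, second part: tubes (without Brownian motion, whose existence is not in Mathlib)
-/

set_option autoImplicit false

namespace Pool.Agent.H55.BZ

open Finset Filter Topology MeasureTheory ProbabilityTheory
open Pool.Agent.H55.DK (Yn Yw stp oddSum)
open Pool.Agent.H499R2.ND.TJ (PP)
open Pool.Agent.Results.MP_f7abf1_nt.BlockLaw (T Syr wait blocks Admissible prob oddCount HasDensity)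

/-- BZ-TUB2: the model walk `Yw` stays in a tube with a probability bounded below. PROOF. Let `n₀` be large (below),
`A_i` (`i < n₀`) the event that `|Yw ((i+1) q) - Yw (i q) - √(2 n₀ q) (f ((i+1)/n₀) - f (i/n₀))| ≤ √(2 n₀ q) ε / (4 n₀)` and
`|Yw (i q + j) - Yw (i q)| ≤ (ε / 4) √(2 n₀ q)` for all `j ≤ q`. If all `A_i` hold and `|f s - f t| ≤ ε / 4` for `|s - t| ≤ 1 / n₀`
then `|Yw j / √(2 n₀ q) - f (j / (n₀ q))| ≤ 3 ε / 4`. The `A_i` depend on `ω` in `[i q, (i+1) q)`, so that they are independent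
under the product measure `PP`. `P(A_i) ≥ P(first) - P(not second)`; by the central limit theorem (`TJ.clt`, used in
`DK/WALK.lean` and `DK/MLAW.lean`) the first tends to `P(|N(0,1) - √n₀ Δ_i| ≤ ε / (4 √n₀))`, which is at least
`(ε / (2 √n₀)) (2π)^(-1/2) exp(-(√n₀ |Δ_i| + ε / (4 √n₀))² / 2)`, and by `DK.S_PMAX` with
`λ = (ε / 4) √(2 n₀ q) / (4 q)` the second is at most `2 exp(- ε² n₀ / 64)`. As `Δ_i → 0` (uniform continuity) the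
difference is positive if `n₀` is large. -/
def S_TUB2 : Prop := ∀ f : ℝ → ℝ, ContinuousOn f (Set.Icc 0 1) → f 0 = 0 → ∀ ε : ℝ, 0 < ε →
  ∃ n₀ : ℕ, 0 < n₀ ∧ ∃ c : ℝ, 0 < c ∧ ∃ q₀ : ℕ, ∀ q : ℕ, q₀ ≤ q →
    c ≤ PP.real {ω : ℕ → ℕ | ∀ j ≤ n₀ * q,
      |((Yw ω j : ℤ) : ℝ) / Real.sqrt (2 * (n₀ * q : ℕ)) - f ((j : ℝ) / (n₀ * q : ℕ))| ≤ ε}

/-- the trajectory of `n` follows the profile `f` on `[0, a]` up to `ε` -/
def Fol (f : ℝ → ℝ) (a ε : ℝ) (n : ℕ) : Prop := ∀ s : ℝ, 0 ≤ s → s ≤ a → |pathT n s - f s| ≤ ε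

/-- BZ-CNT (helper55): from `S_CTL`, `S_TVP`, `S_DETT`, `S_TUB2` -/
def S_CNT : Prop := ∀ f : ℝ → ℝ, ContinuousOn f (Set.Icc 0 1) → f 0 = 0 → ∀ κ ε : ℝ, 0 < κ → κ < 1 → 0 < ε →
  ∃ c : ℝ, 0 < c ∧ ∀ P : ℕ → Prop, (∀ n, 1 ≤ n → (P n ↔ P (T n))) → ∀ δ : ℝ, HasDensity P δ →
    ∀ᶠ N : ℕ in atTop, c * δ * N ≤ ({n : ℕ | 1 ≤ n ∧ n ≤ N ∧ P n ∧ Fol f (1 - κ) ε n}.ncard : ℝ)

end Pool.Agent.H55.BZ
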