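import Pool.Agent.H55.BZ.FCL
import Pool.Agent.H55.BZ.Stm2

/-!
# Project BZ: the integers of an invariant set whose trajectory follows a given profile
-/

set_option autoImplicit false

namespace Pool.Agent.H55.BZ.CNT

open Finset Filter Topology MeasureTheory ProbabilityTheory
open Pool.Agent.H499R2.ND.TJ (PP)
open Pool.Agent.Results.MP_f7abf1_nt.BlockLaw (T Syr wait blocks Admissible prob oddCount HasDensity)
open Pool.Agent.H55.UL (oc_mono oc_or oc_le oc_nonneg oc_small log_tendsto log43_lo log43_hi)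
open Pool.Agent.H55.DK (Yn Yw stp oddSum)
open Pool.Agent.H55.DK.FCLT (oc_sum blocks_Yn blocks_Yw)

theorem tele (y : ℕ → ℝ) (S : ℝ) {r k : ℕ} (hk : k ≤ r) :
    ∑ i : Fin r, (if (i : ℕ) < k then (y ((i : ℕ) + 1) - y (i : ℕ)) / S else 0) = (y k - y 0) / S := by
  rw [Fin.sum_univ_eq_sum_range (fun i => if i < k then (y (i + 1) - y i) / S else 0) r, ← Finset.sum_filter]
  have : (range r).filter (fun i => i < k) = range k := by
    ext i
    simp only [Finset.mem_filter, Finset.mem_range]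
    omega
  rw [this, ← Finset.sum_div, Finset.sum_range_sub]

theorem stp_eq {r : ℕ} (G : ℕ) (v : Fin r → ℝ) (s : ℝ) (hs : 0 ≤ s) :
    stp G v s = ∑ i : Fin r, if (i : ℕ) < ⌊s * G⌋₊ then v i else 0 := by
  unfold stp
  apply Finset.sum_congr rfl
  intro i _
  have h0 : 0 ≤ s * G := mul_nonneg hs (Nat.cast_nonneg _)
  have : (((i : ℕ) : ℝ) + 1 ≤ s * G) ↔ (i : ℕ) < ⌊s * G⌋₊ := by
    rw [← Nat.succ_le_iff, Nat.le_floor_iff h0]
    push_cast
    rfl
  by_cases h : (i : ℕ) < ⌊s * G⌋₊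
  · rw [if_pos h, if_pos (this.2 h)]
  · rw [if_neg h, if_neg (fun h' => h (this.1 h'))]

/-- the block sums stay in the tube -/
def EE (f : ℝ → ℝ) (ε : ℝ) (G b r : ℕ) (u : Fin r → ℕ) : Prop := ∀ k ≤ r,
  |∑ i : Fin r, (if (i : ℕ) < k then (2 * (b : ℝ) - (u i : ℕ)) / Real.sqrt (2 * (G : ℕ) * b) else 0) - f ((k : ℝ) / G)| ≤ ε

open Classical in
theorem model {f : ℝ → ℝ} {ε c : ℝ} {n₀ q₀ : ℕ} (h : ∀ q : ℕ, q₀ ≤ q → c ≤ PP.real {ω : ℕ → ℕ | ∀ j ≤ n₀ * q,
      |((Yw ω j : ℤ) : ℝ) / Real.sqrt (2 * (n₀ * q : ℕ)) - f ((j : ℝ) / (n₀ * q : ℕ))| ≤ ε}) {G a b r : ℕ}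
    (hG : G = n₀ * a) (ha : 0 < a) (hr : r ≤ G) (hb : q₀ ≤ b) (hb0 : 0 < b) :
    c ≤ ∫ ω : ℕ → ℕ, (if EE f ε G b r (blocks (fun i => i * b) r (fun j => ω j + 1)) then (1 : ℝ) else 0) ∂PP := by
  have hq : q₀ ≤ a * b := hb.trans (Nat.le_mul_of_pos_left b ha)
  have h1 := h (a * b) hq
  have hmeas0 : Measurable fun ω : ℕ → ℕ => blocks (fun i => i * b) r (fun j => ω j + 1) := by
    apply measurable_pi_lambda
    intro i
    unfold blocks
    apply Finset.measurable_sum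
    intro j _
    exact (measurable_pi_apply j).add_const 1
  have hset : MeasurableSet {ω : ℕ → ℕ | EE f ε G b r (blocks (fun i => i * b) r (fun j => ω j + 1))} :=
    hmeas0 (Set.to_countable {u | EE f ε G b r u}).measurableSet
  have e1 : ∫ ω : ℕ → ℕ, (if EE f ε G b r (blocks (fun i => i * b) r (fun j => ω j + 1)) then (1 : ℝ) else 0) ∂PP =
      PP.real {ω : ℕ → ℕ | EE f ε G b r (blocks (fun i => i * b) r (fun j => ω j + 1))} := by
    rw [← integral_indicator_one hset]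
    congr 1
  rw [e1]
  refine h1.trans (measureReal_mono ?_ (measure_ne_top _ _))
  intro ω hω k hk
  have hω' : ∀ j ≤ n₀ * (a * b), |((Yw ω j : ℤ) : ℝ) / Real.sqrt (2 * (n₀ * (a * b) : ℕ)) -
    f ((j : ℝ) / (n₀ * (a * b) : ℕ))| ≤ ε := hω
  have hGb : n₀ * (a * b) = G * b := by rw [hG]; ring
  rw [hGb] at hω'
  have h2 := hω' (k * b) (Nat.mul_le_mul_right b (hk.trans hr))
  have h3 : ∑ i : Fin r, (if (i : ℕ) < k then
      (2 * (b : ℝ) - (blocks (fun i => i * b) r (fun j => ω j + 1) i : ℕ)) / Real.sqrt (2 * (G : ℕ) * b) else 0) =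
      ((Yw ω (k * b) : ℤ) : ℝ) / Real.sqrt (2 * (G : ℕ) * b) := by
    simp only [blocks_Yw]
    have h4 := tele (fun i => ((Yw ω (i * b) : ℤ) : ℝ)) (Real.sqrt (2 * (G : ℕ) * b)) hk
    have h5 : Yw ω (0 * b) = 0 := by
      unfold Yw
      simp
    rw [h5] at h4
    simp only [Int.cast_sub]
    rw [h4]
    simp
  rw [h3]
  have h6 : ((k * b : ℕ) : ℝ) / (G * b : ℕ) = (k : ℝ) / G := by
    have hbR : (b : ℝ) ≠ 0 := by exact_mod_cast hb0.ne'
    push_cast
    exact mul_div_mul_right _ _ hbR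
  have h7 : (2 : ℝ) * (G * b : ℕ) = 2 * (G : ℕ) * b := by
    push_cast
    ring
  rw [h6, h7] at h2
  exact h2

open Classical in
theorem main (hT : S_CTL) (hTV : S_TVP) (hD : S_DETT) (hTB : S_TUB2) : S_CNT := by
  intro f hf hf0 κ ε hκ hκ1 hε
  obtain ⟨n₀, hn₀, c, hc, q₀, hq₀⟩ := hTB f hf hf0 (ε / 2) (by positivity)
  refine ⟨c / 4, by positivity, fun R hR δ hδ => ?_⟩
  obtain ⟨δ', hδ0, hδ1, h3', _⟩ := Pool.Agent.Results.MP_f7abf1_nt.BlockLaw.result.1 R hR
  have hδ' : δ' = δ := tendsto_nhds_unique h3' hδ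
  subst hδ'
  rcases hδ0.eq_or_lt with hz | hδp
  · filter_upwards with N
    rw [← hz]
    simp
  set ε' : ℝ := δ' * c / 16 with hε'
  have hε0 : 0 < ε' := by positivity
  obtain ⟨e, he, hdet⟩ := hD (ε / 4) (by positivity)
  -- uniform continuity
  obtain ⟨d, hd, hfd⟩ : ∃ d : ℝ, 0 < d ∧ ∀ s t : ℝ, s ∈ Set.Icc (0 : ℝ) 1 → t ∈ Set.Icc (0 : ℝ) 1 → |s - t| < d →
      |f s - f t| ≤ ε / 4 := by
    have h1 := isCompact_Icc.uniformContinuousOn_of_continuous hf
    rw [Metric.uniformContinuousOn_iff] at h1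
    obtain ⟨d, hd, h2⟩ := h1 (ε / 4) (by positivity)
    exact ⟨d, hd, fun s t hs ht hst => (h2 s hs t ht (by rwa [Real.dist_eq])).le⟩
  -- choice of `g`
  have hg0 : ∀ᶠ a : ℕ in atTop, max (max 4 (4 / κ)) (2 / d) ≤ (a : ℝ) :=
    tendsto_natCast_atTop_atTop.eventually_ge_atTop _
  obtain ⟨a, ha⟩ := hg0.exists
  have ha4 : (4 : ℝ) ≤ a := ((le_max_left _ _).trans (le_max_left _ _)).trans ha
  have haκ : 4 / κ ≤ a := ((le_max_right _ _).trans (le_max_left _ _)).trans ha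
  have had : 2 / d ≤ a := (le_max_right _ _).trans ha
  have ha4' : 4 ≤ a := by exact_mod_cast ha4
  set g : ℕ := n₀ * a with hgdef
  have hag : a ≤ g := Nat.le_mul_of_pos_left a hn₀
  have hagR : (a : ℝ) ≤ g := by exact_mod_cast hag
  have hg : 1 < g := by omega
  have hgR : (0 : ℝ) < g := by exact_mod_cast (by omega : 0 < g)
  have hgκ : 1 / (g : ℝ) ≤ 1 / 4 := one_div_le_one_div_of_le (by norm_num) (ha4.trans hagR)
  have hg4 : 4 / κ ≤ g := haκ.trans hagR
  obtain ⟨h, hh0', hhc⟩ := hT e ε' (1 / (g : ℝ)) he hε0 (by positivity) hgκ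
  set G : ℕ := g * h with hG
  set r : ℕ := (g - 1) * h with hr
  have hhr : h ≤ r := by
    have : 1 ≤ g - 1 := by omega
    calc h = 1 * h := (one_mul _).symm
      _ ≤ (g - 1) * h := Nat.mul_le_mul_right h this
  have hXc := hhc r hhr
  have hG0 : 0 < G := Nat.mul_pos (by omega) hh0'
  have hGR : (0 : ℝ) < G := by exact_mod_cast hG0
  have hhR : (0 : ℝ) < h := by exact_mod_cast hh0'
  have hGgh : (G : ℝ) = g * h := by rw [hG]; push_cast; ring
  have hrgh : (r : ℝ) = (g - 1) * h := by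
    rw [hr]
    push_cast [Nat.cast_sub hg.le]
    ring
  have hrG : (r : ℝ) / G = 1 - 1 / g := by
    rw [hrgh, hGgh]
    field_simp
  have hgG : (g : ℝ) ≤ G := by
    rw [hGgh]
    have h2 : (1 : ℝ) ≤ h := by exact_mod_cast hh0'
    have h3 := mul_le_mul_of_nonneg_left h2 hgR.le
    linarith
  set θ : ℝ := ε' / 2 with hθ
  have hθ0 : 0 < θ := by positivity
  have hκ'0 : (0 : ℝ) < 1 / G := by positivity
  filter_upwards [hXc, hTV R hR δ' hδ (1 / G) ε' hκ'0 hε0, oc_small hθ0, hdet κ hκ hκ1 g h 0 hg4 hh0' θ hθ0,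
    log_tendsto.eventually_ge_atTop (max (max 1 (G * (q₀ + 1))) (g * r))]
    with X hXc hXl hXs hXd hL
  set L := Real.log X with hLd
  have hL1 : 1 ≤ L := ((le_max_left _ _).trans (le_max_left _ _)).trans hL
  have hL2 : (G : ℝ) * (q₀ + 1) ≤ L := ((le_max_right _ _).trans (le_max_left _ _)).trans hL
  have hL3 : (g : ℝ) * r ≤ L := (le_max_right _ _).trans hL
  have hL0 : 0 < L := by linarith
  have hqlo := log43_lo
  have hqhi := log43_hi
  set q := Real.log (4 / 3) with hq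
  have hqpos : 0 < q := by linarith
  have hX0 : (0 : ℝ) ≤ X := Nat.cast_nonneg X
  set b : ℕ := ⌊L / q / (g * h : ℕ)⌋₊ with hbd
  have hLq0 : L * q ≤ L * (1 / 3) := mul_le_mul_of_nonneg_left hqhi hL0.le
  have hLq : 3 * L ≤ L / q := by
    rw [le_div_iff₀ hqpos]
    linarith
  have hbx : (b : ℝ) ≤ L / q / G ∧ L / q / G < b + 1 := by
    have h0 : 0 ≤ L / q / G := by positivity
    exact ⟨Nat.floor_le h0, Nat.lt_floor_add_one _⟩
  have hb1 : (G : ℝ) * b ≤ L / q := by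
    have := hbx.1
    rw [le_div_iff₀ hGR] at this
    linarith
  have hb2 : L / q ≤ G * b + G := by
    have := hbx.2.le
    rw [div_le_iff₀ hGR] at this
    linarith
  have hGL : (G : ℝ) ≤ L := by
    have : (G : ℝ) * 1 ≤ G * (q₀ + 1) := by
      apply mul_le_mul_of_nonneg_left _ hGR.le
      have : (0 : ℝ) ≤ q₀ := Nat.cast_nonneg _
      linarith
    linarith
  have hbb : q₀ ≤ b := by
    have h1 : (G : ℝ) * (q₀ + 1) ≤ G * (b + 1) := by linarith
    have h2 := le_of_mul_le_mul_left h1 hGR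
    have h3 : (q₀ : ℝ) ≤ b := by linarith
    exact_mod_cast h3
  have hbL : L ≤ G * b := by linarith
  have hb0 : 0 < b := by
    rcases Nat.eq_zero_or_pos b with h0 | h0
    · rw [h0] at hbL
      simp at hbL
      linarith
    · exact h0
  have hbR : (0 : ℝ) < b := by exact_mod_cast hb0
  -- conditions
  have c1 : 1 / (G : ℝ) * L ≤ b := by
    rw [one_div_mul_eq_div, div_le_iff₀ hGR]
    linarith
  have hrb : (r : ℝ) * b ≤ (1 - 1 / g) * L / q := by
    have h1 : (r : ℝ) * b = (r / G) * (G * b) := by field_simp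
    rw [h1, hrG]
    have h2 : 0 ≤ 1 - 1 / (g : ℝ) := by
      rw [← hrG]
      positivity
    calc (1 - 1 / (g : ℝ)) * (G * b) ≤ (1 - 1 / g) * (L / q) := mul_le_mul_of_nonneg_left hb1 h2
      _ = (1 - 1 / g) * L / q := by ring
  have c2 : ((r * b : ℕ) : ℝ) ≤ (1 - 1 / G) * L / q := by
    push_cast
    refine hrb.trans ?_
    have h1 : 1 / (G : ℝ) ≤ 1 / g := one_div_le_one_div_of_le hgR hgG
    gcongr
  have c3 : (r : ℝ) * b * q ≤ (1 - 1 / (g : ℝ)) * L := by
    rwa [le_div_iff₀ hqpos] at hrb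
  have c4 : (1 - 2 * (1 / (g : ℝ))) * L ≤ r * b * q := by
    have h1 : (r : ℝ) * b = (r / G) * (G * b) := by field_simp
    have h2 : 0 ≤ (r : ℝ) / G := by positivity
    have h3 : (r : ℝ) / G * (L / q) ≤ r * b + r := by
      calc (r : ℝ) / G * (L / q) ≤ r / G * (G * b + G) := mul_le_mul_of_nonneg_left hb2 h2
        _ = r * b + r := by field_simp
    have h4 : (1 - 1 / (g : ℝ)) * L ≤ (r * b + r) * q := by
      rw [hrG, ← mul_div_assoc, div_le_iff₀ hqpos] at h3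
      exact h3
    have h5 : (r : ℝ) * q ≤ 1 / g * L := by
      rw [one_div_mul_eq_div, le_div_iff₀ hgR]
      have h6 : (0 : ℝ) ≤ g * r := by positivity
      have h7 := mul_le_mul_of_nonneg_left hqhi h6
      have h8 : (r : ℝ) * q * g = g * r * q := by ring
      rw [h8]
      linarith
    have h6 : ((r : ℝ) * b + r) * q = r * b * q + r * q := by ring
    rw [h6] at h4
    have h7 : (1 - 2 * (1 / (g : ℝ))) * L = (1 - 1 / (g : ℝ)) * L - 1 / g * L := by ring
    rw [h7]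
    linarith
  have hbad := hXc b hb0 c4 c3
  -- the law
  have hrG' : r ≤ G := Nat.mul_le_mul_right h (Nat.sub_le _ _)
  have hGn : G = n₀ * (a * h) := by rw [hG, hgdef]; ring
  have hW := model hq₀ hGn (Nat.mul_pos (by omega) hh0') hrG' hbb hb0
  set W : ℝ := ∫ ω : ℕ → ℕ, (if EE f (ε / 2) G b r (blocks (fun i => i * b) r (fun j => ω j + 1)) then (1 : ℝ) else 0) ∂PP
    with hWd
  have l1 := hXl r b c1 c2 (fun u => if EE f (ε / 2) G b r u then (1 : ℝ) else 0) (fun u => by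
    show 0 ≤ (if EE f (ε / 2) G b r u then (1 : ℝ) else 0) ∧ (if EE f (ε / 2) G b r u then (1 : ℝ) else 0) ≤ 1
    split_ifs <;> simp)
  have l2 : oddSum X (fun m => if R m then (if EE f (ε / 2) G b r (blocks (fun i => i * b) r (wait m)) then (1 : ℝ) else 0)
      else 0) = oddCount X (fun m => R m ∧ EE f (ε / 2) G b r (blocks (fun i => i * b) r (wait m))) := by
    rw [oc_sum]
    congr 1
    funext m
    by_cases h1 : R m
    · by_cases h2 : EE f (ε / 2) G b r (blocks (fun i => i * b) r (wait m))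
      · rw [if_pos h1, if_pos h2, if_pos ⟨h1, h2⟩]
      · rw [if_pos h1, if_neg h2, if_neg (fun h => h2 h.2)]
    · rw [if_neg h1, if_neg (fun h => h1 h.1)]
  have l3 : |oddCount X (fun m => R m ∧ EE f (ε / 2) G b r (blocks (fun i => i * b) r (wait m))) - δ' / 2 * W * X| ≤
      ε' * X := by
    rw [← l2]
    exact l1
  set Bad : ℕ → Prop := fun n => (¬ Ct (e * Real.sqrt L) r b n) ∨ ¬ (θ * X ≤ n) with hBad
  have hBc : oddCount X Bad ≤ 2 * ε' * X := by
    have h6 := oc_or X (fun n => ¬ Ct (e * Real.sqrt L) r b n) (fun n => ¬ (θ * X ≤ n))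
    have h7 : oddCount X (fun n => ¬ (θ * X ≤ n)) ≤ 2 * θ * X := hXs
    have h8 : 2 * θ * X = ε' * X := by rw [hθ]; ring
    have h9 : oddCount X (fun n => ¬ Ct (e * Real.sqrt L) r b n) ≤ ε' * X := hbad
    linarith
  have hmono : oddCount X (fun m => R m ∧ EE f (ε / 2) G b r (blocks (fun i => i * b) r (wait m))) ≤
      oddCount X (fun m => (R m ∧ Fol f (1 - κ) ε m) ∨ Bad m) := by
    apply oc_mono
    intro m hmX hmo hRE
    by_cases hb' : Bad m
    · exact Or.inr hb'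
    left
    refine ⟨hRE.1, fun s hs0 hs1 => ?_⟩
    obtain ⟨g1, g2⟩ := not_or.1 hb'
    rw [not_not] at g1 g2
    have k1 := hXd b rfl m hmX g2 (Nat.odd_iff.1 hmo) g1 s hs0 hs1
    rw [pow_zero, one_mul, stp_eq _ _ _ hs0] at k1
    have hgk : 1 / (g : ℝ) ≤ κ := by
      rw [div_le_iff₀ hκ] at hg4
      rw [div_le_iff₀ hgR]
      linarith
    have hsG : s * G ≤ r := by
      have h1 : s ≤ r / G := by
        rw [hrG]
        linarith
      rwa [le_div_iff₀ hGR] at h1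
    have hsG0 : 0 ≤ s * G := by positivity
    have hk : ⌊s * G⌋₊ ≤ r := Nat.floor_le_of_le hsG
    have k2 := hRE.2 ⌊s * G⌋₊ hk
    simp only [blocks_Yn] at k2
    have k3 : |f ((⌊s * G⌋₊ : ℝ) / G) - f s| ≤ ε / 4 := by
      have f1 := Nat.floor_le hsG0
      have f2 := (Nat.lt_floor_add_one (s * G)).le
      have f3 : (⌊s * G⌋₊ : ℝ) / G ≤ s := by
        rw [div_le_iff₀ hGR]
        exact f1
      have f4 : s - 1 / G ≤ (⌊s * G⌋₊ : ℝ) / G := by
        rw [le_div_iff₀ hGR]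
        have : (s - 1 / G) * G = s * G - 1 := by field_simp
        rw [this]
        linarith
      have f5 : 0 ≤ (⌊s * G⌋₊ : ℝ) / G := by positivity
      apply hfd _ _ ⟨f5, by linarith⟩ ⟨hs0, by linarith⟩
      have f6 : 1 / (G : ℝ) < d := by
        rw [div_le_iff₀ hd] at had
        rw [div_lt_iff₀ hGR]
        have f7 : (a : ℝ) * d ≤ G * d := mul_le_mul_of_nonneg_right (hagR.trans hgG) hd.le
        linarith
      rw [abs_lt]
      constructor <;> linarith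
    have hgh : ((g * h : ℕ) : ℝ) = (G : ℝ) := by rw [hG]
    have hfin := abs_le.1 k1
    have hfin2 := abs_le.1 k2
    have hfin3 := abs_le.1 k3
    rw [abs_le]
    constructor
    · linarith [hfin.1, hfin2.1, hfin3.1]
    · linarith [hfin.2, hfin2.2, hfin3.2]
  have hor := oc_or X (fun m => R m ∧ Fol f (1 - κ) ε m) Bad
  have hfinal : oddCount X (fun m => R m ∧ Fol f (1 - κ) ε m) ≤
      ({n : ℕ | 1 ≤ n ∧ n ≤ X ∧ R n ∧ Fol f (1 - κ) ε n}.ncard : ℝ) := by
    unfold oddCount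
    have hfi : {n : ℕ | 1 ≤ n ∧ n ≤ X ∧ R n ∧ Fol f (1 - κ) ε n}.Finite :=
      (Set.finite_Iic X).subset fun n hn => hn.2.1
    have hsub : {n : ℕ | n ≤ X ∧ Odd n ∧ R n ∧ Fol f (1 - κ) ε n} ⊆
        {n : ℕ | 1 ≤ n ∧ n ≤ X ∧ R n ∧ Fol f (1 - κ) ε n} := fun n hn => ⟨hn.2.1.pos, hn.1, hn.2.2⟩
    exact_mod_cast Set.ncard_le_ncard hsub hfi
  have k4 := (abs_le.1 l3).1
  have k5 : δ' / 2 * c * X ≤ δ' / 2 * W * X := by
    apply mul_le_mul_of_nonneg_right _ hX0
    exact mul_le_mul_of_nonneg_left hW (by positivity)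
  have k6 : δ' / 2 * c * X = 8 * (ε' * X) := by rw [hε']; ring
  have k7 : c / 4 * δ' * X = 4 * (ε' * X) := by rw [hε']; ring
  have hpos : 0 ≤ ε' * X := by positivity
  rw [k7]
  linarith

end Pool.Agent.H55.BZ.CNT
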