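import Pool.Agent.H55.BZ.Stm2
import Pool.Agent.H55.DK.WALK

/-! BZ-TUB2 (helper19) -/

set_option autoImplicit false

namespace Pool.Agent.H55.BZ.TUB2

open Finset Filter Topology MeasureTheory ProbabilityTheory
open scoped NNReal
open Pool.Agent.H55.DK (Yw S_PMAX S_WALK)
open Pool.Agent.H499R2.ND.TJ (PP meas_nl)

theorem coord : iIndepFun (fun (i : ℕ) (ω : ℕ → ℕ) => ω i) PP := by
  unfold PP
  exact iIndepFun_infinitePi (X := fun _ (n : ℕ) => n) (fun _ => measurable_id)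

/-- the event depends only on the coordinates in `S` -/
def Dep (S : Finset ℕ) (F : Set (ℕ → ℕ)) : Prop :=
  ∀ ω ω' : ℕ → ℕ, (∀ i ∈ S, ω i = ω' i) → ω ∈ F → ω' ∈ F

theorem dep_pre {S : Finset ℕ} {F : Set (ℕ → ℕ)} (h : Dep S F) :
    ∃ F' : Set (S → ℕ), F = (fun (ω : ℕ → ℕ) (i : S) => ω i) ⁻¹' F' := by
  refine ⟨(fun (ω : ℕ → ℕ) (i : S) => ω i) '' F, ?_⟩
  ext ω
  constructor
  · intro hω
    exact ⟨ω, hω, rfl⟩
  · rintro ⟨ω', hω', he⟩
    exact h ω' ω (fun i hi => congrFun he ⟨i, hi⟩) hω'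

theorem meas_all {S : Finset ℕ} (F' : Set (S → ℕ)) : MeasurableSet F' :=
  (Set.to_countable F').measurableSet

theorem dep_meas {S : Finset ℕ} {F : Set (ℕ → ℕ)} (h : Dep S F) : MeasurableSet F := by
  obtain ⟨F', hF'⟩ := dep_pre h
  rw [hF']
  exact (measurable_pi_lambda _ fun i => measurable_pi_apply _) (meas_all F')

theorem indep_sets {S T : Finset ℕ} (hST : Disjoint S T) {F A : Set (ℕ → ℕ)} (hF : Dep S F)
    (hA : Dep T A) : PP.real (F ∩ A) = PP.real F * PP.real A := by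
  have h := coord.indepFun_finset S T hST (fun i => measurable_pi_apply i)
  obtain ⟨F', hF'⟩ := dep_pre hF
  obtain ⟨A', hA'⟩ := dep_pre hA
  have h2 := h.measure_inter_preimage_eq_mul F' A' (meas_all F') (meas_all A')
  have h3 : PP (F ∩ A) = PP F * PP A := by
    rw [hF', hA']
    exact h2
  rw [Measure.real, h3, ENNReal.toReal_mul]
  rfl

/-- lower bound for the normal law -/
theorem gauss_lb {n : ℕ} (hn : 2 ≤ n) {ε Δ : ℝ} (hε : 0 < ε) (hΔ : |Δ| ≤ ε / 16) :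
    ε / (4 * n) * (Real.sqrt (2 * Real.pi))⁻¹ * Real.exp (-(n * ε ^ 2 / 128)) ≤
      (gaussianReal 0 (1 / (n : ℝ≥0))).real (Set.Icc (Δ - ε / (8 * n)) (Δ + ε / (8 * n))) := by
  have hn2 : (2 : ℝ) ≤ n := by exact_mod_cast hn
  have hn0 : (0 : ℝ) < n := by linarith
  have hv : (1 / (n : ℝ≥0)) ≠ 0 := by
    have : (0 : ℝ≥0) < n := by exact_mod_cast (by omega : 0 < n)
    positivity
  rw [Measure.real, gaussianReal_apply_eq_integral _ hv]
  have hpdf : ∀ x ∈ Set.Icc (Δ - ε / (8 * n)) (Δ + ε / (8 * n)),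
      (Real.sqrt (2 * Real.pi))⁻¹ * Real.exp (-(n * ε ^ 2 / 128)) ≤
        gaussianPDFReal 0 (1 / (n : ℝ≥0)) x := by
    intro x hx
    have hx1 : |x| ≤ ε / 8 := by
      have e1 : ε / (8 * n) ≤ ε / 16 := by
        refine div_le_div_of_nonneg_left hε.le (by norm_num) (by linarith)
      rw [abs_le] at hΔ ⊢
      constructor <;> linarith [hx.1, hx.2, hΔ.1, hΔ.2]
    have hx2 : x ^ 2 ≤ ε ^ 2 / 64 := by
      have := sq_le_sq' (by linarith [(abs_le.1 hx1).1]) (abs_le.1 hx1).2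
      calc x ^ 2 ≤ (ε / 8) ^ 2 := this
        _ = ε ^ 2 / 64 := by ring
    unfold gaussianPDFReal
    have e1 : (((1 / (n : ℝ≥0)) : ℝ≥0) : ℝ) = 1 / n := by push_cast; rfl
    rw [e1, sub_zero]
    refine mul_le_mul ?_ ?_ (Real.exp_pos _).le (by positivity)
    · refine inv_anti₀ (by positivity) (Real.sqrt_le_sqrt ?_)
      rw [mul_one_div]
      exact div_le_self (by positivity) (by linarith)
    · refine Real.exp_le_exp.2 ?_
      have e2 : -x ^ 2 / (2 * (1 / (n : ℝ))) = -(n * x ^ 2 / 2) := by field_simp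
      rw [e2, neg_le_neg_iff]
      have : (n : ℝ) * x ^ 2 ≤ n * (ε ^ 2 / 64) := mul_le_mul_of_nonneg_left hx2 hn0.le
      linarith
  have h1 := setIntegral_ge_of_const_le_real (μ := volume) measurableSet_Icc (by
    rw [Real.volume_Icc]; exact ENNReal.ofReal_ne_top) hpdf
    (integrable_gaussianPDFReal 0 (1 / (n : ℝ≥0))).integrableOn
  have h2 : (volume : Measure ℝ).real (Set.Icc (Δ - ε / (8 * n)) (Δ + ε / (8 * n))) = ε / (4 * n) := by
    rw [Measure.real, Real.volume_Icc, ENNReal.toReal_ofReal]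
    · field_simp
      ring
    · have : 0 ≤ ε / (8 * n) := by positivity
      linarith
  rw [h2] at h1
  rw [ENNReal.toReal_ofReal]
  · linarith
  · refine le_trans ?_ h1
    positivity

/-- the Gaussian lower bound beats the oscillation -/
theorem choice {ε : ℝ} (hε : 0 < ε) : ∃ N : ℕ, ∀ n : ℕ, N ≤ n →
    8 * Real.exp (-(ε ^ 2 * n / 64)) ≤
      ε / (4 * n) * (Real.sqrt (2 * Real.pi))⁻¹ * Real.exp (-(n * ε ^ 2 / 128)) := by
  have h1 := Real.tendsto_pow_mul_exp_neg_atTop_nhds_zero 1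
  have h2 : Tendsto (fun n : ℕ => (n : ℝ) * (ε ^ 2 / 128)) atTop atTop :=
    tendsto_natCast_atTop_atTop.atTop_mul_const (by positivity)
  have h3 := h1.comp h2
  have h4 : 0 < ε ^ 3 / 4096 * (Real.sqrt (2 * Real.pi))⁻¹ := by positivity
  obtain ⟨N, hN⟩ := eventually_atTop.1 ((h3.eventually (gt_mem_nhds h4)).and (eventually_ge_atTop 1))
  refine ⟨N, fun n hn => ?_⟩
  obtain ⟨h5, h6⟩ := hN n hn
  have hn0 : (0 : ℝ) < n := by exact_mod_cast h6
  simp only [Function.comp_apply, pow_one] at h5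
  obtain ⟨y, hy⟩ : ∃ y : ℝ, y = Real.exp (-((n : ℝ) * (ε ^ 2 / 128))) := ⟨_, rfl⟩
  have hy0 : 0 < y := by rw [hy]; exact Real.exp_pos _
  have e1 : Real.exp (-(ε ^ 2 * n / 64)) = y * y := by
    rw [hy, ← Real.exp_add]
    congr 1
    ring
  have e2 : Real.exp (-(n * ε ^ 2 / 128)) = y := by
    rw [hy]
    congr 1
    ring
  rw [e1, e2]
  rw [← hy] at h5
  obtain ⟨w, hw⟩ : ∃ w : ℝ, w = (Real.sqrt (2 * Real.pi))⁻¹ := ⟨_, rfl⟩
  rw [← hw] at h5 ⊢
  -- n y ε²/128 < ε³ w / 4096, so 8 y ≤ ε w / (4 n)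
  have e3 : 8 * y ≤ ε / (4 * n) * w := by
    have e4 : (n : ℝ) * y * 32 < ε * w := by
      have e5 : ε ^ 2 * ((n : ℝ) * y * 32) < ε ^ 2 * (ε * w) := by
        have : ε ^ 2 * ((n : ℝ) * y * 32) = 4096 * ((n : ℝ) * (ε ^ 2 / 128) * y) := by ring
        rw [this]
        have : ε ^ 2 * (ε * w) = 4096 * (ε ^ 3 / 4096 * w) := by ring
        rw [this]
        exact mul_lt_mul_of_pos_left h5 (by norm_num)
      exact lt_of_mul_lt_mul_left e5 (by positivity)
    rw [div_mul_eq_mul_div, le_div_iff₀ (by positivity)]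
    linarith
  calc 8 * (y * y) = 8 * y * y := by ring
    _ ≤ ε / (4 * n) * w * y := mul_le_mul_of_nonneg_right e3 hy0.le

/-- the tent function -/
noncomputable def tent (Δ w x : ℝ) : ℝ := max 0 (min 1 (2 - |x - Δ| / w))

theorem tent_cont (Δ w : ℝ) : Continuous (tent Δ w) := by
  unfold tent
  fun_prop

theorem tent_nonneg (Δ w x : ℝ) : 0 ≤ tent Δ w x := le_max_left _ _

theorem tent_le_one (Δ w x : ℝ) : tent Δ w x ≤ 1 := max_le zero_le_one (min_le_left _ _)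

theorem tent_one {Δ w x : ℝ} (hw : 0 < w) (h : |x - Δ| ≤ w) : tent Δ w x = 1 := by
  unfold tent
  have : |x - Δ| / w ≤ 1 := by rwa [div_le_one hw]
  rw [min_eq_left (by linarith), max_eq_right zero_le_one]

theorem tent_zero {Δ w x : ℝ} (hw : 0 < w) (h : 2 * w < |x - Δ|) : tent Δ w x = 0 := by
  unfold tent
  have : 2 < |x - Δ| / w := by rwa [lt_div_iff₀ hw]
  exact max_eq_left (le_trans (min_le_right _ _) (by linarith))

/-- the first event -/
def E1 (n q i : ℕ) (Δ w : ℝ) : Set (ℕ → ℕ) :=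
  {ω | |((Yw ω ((i + 1) * q) - Yw ω (i * q) : ℤ) : ℝ) / Real.sqrt (2 * n * q) - Δ| ≤ w}

/-- the second event -/
def E2 (q i : ℕ) (b : ℝ) : Set (ℕ → ℕ) :=
  {ω | ∀ j ≤ q, |((Yw ω (i * q + j) - Yw ω (i * q) : ℤ) : ℝ)| ≤ b}

theorem Yw_dep {q i j : ℕ} (hj : j ≤ q) {ω ω' : ℕ → ℕ}
    (h : ∀ k ∈ Finset.Ico (i * q) ((i + 1) * q), ω k = ω' k) :
    Yw ω (i * q + j) - Yw ω (i * q) = Yw ω' (i * q + j) - Yw ω' (i * q) := by
  have key : ∀ ω : ℕ → ℕ, Yw ω (i * q + j) - Yw ω (i * q) =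
      2 * (j : ℤ) - ∑ k ∈ range j, ((ω (i * q + k) : ℤ) + 1) := by
    intro ω
    unfold Yw
    rw [sum_range_add]
    push_cast
    ring
  rw [key, key]
  congr 1
  refine sum_congr rfl fun k hk => ?_
  rw [mem_range] at hk
  rw [h (i * q + k) (mem_Ico.2 ⟨by omega, by
    have : (i + 1) * q = i * q + q := by ring
    omega⟩)]

theorem dep1 {n q i : ℕ} {Δ w : ℝ} : Dep (Finset.Ico (i * q) ((i + 1) * q)) (E1 n q i Δ w) := by
  intro ω ω' h hω
  have e := Yw_dep (le_refl q) h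
  have e2 : i * q + q = (i + 1) * q := by ring
  rw [e2] at e
  unfold E1 at hω ⊢
  show |((Yw ω' ((i + 1) * q) - Yw ω' (i * q) : ℤ) : ℝ) / Real.sqrt (2 * n * q) - Δ| ≤ w
  rw [← e]
  exact hω

theorem dep2 {q i : ℕ} {b : ℝ} : Dep (Finset.Ico (i * q) ((i + 1) * q)) (E2 q i b) := by
  intro ω ω' h hω j hj
  rw [← Yw_dep hj h]
  exact hω j hj

theorem dep_inter {S : Finset ℕ} {F G : Set (ℕ → ℕ)} (hF : Dep S F) (hG : Dep S G) :
    Dep S (F ∩ G) := fun ω ω' h hω => ⟨hF ω ω' h hω.1, hG ω ω' h hω.2⟩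

/-- product over the blocks -/
theorem prod_lb {q : ℕ} {A : ℕ → Set (ℕ → ℕ)} (hA : ∀ i, Dep (Finset.Ico (i * q) ((i + 1) * q)) (A i))
    {c : ℝ} (hc : 0 ≤ c) : ∀ r : ℕ, (∀ i < r, c ≤ PP.real (A i)) →
      c ^ r ≤ PP.real {ω | ∀ i < r, ω ∈ A i} := by
  intro r
  induction r with
  | zero =>
    intro _
    have : {ω : ℕ → ℕ | ∀ i < 0, ω ∈ A i} = Set.univ := by
      ext ω
      simp
    rw [this]
    simp
  | succ r ih =>
    intro h
    have h1 := ih fun i hi => h i (by omega)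
    have h2 := h r (by omega)
    have e : {ω : ℕ → ℕ | ∀ i < r + 1, ω ∈ A i} = {ω | ∀ i < r, ω ∈ A i} ∩ A r := by
      ext ω
      constructor
      · intro hω
        exact ⟨fun i hi => hω i (by omega), hω r (by omega)⟩
      · rintro ⟨hω, hr⟩ i hi
        rcases Nat.lt_or_ge i r with h' | h'
        · exact hω i h'
        · have : i = r := by omega
          rw [this]
          exact hr
    have hdep : Dep (Finset.range (r * q)) {ω : ℕ → ℕ | ∀ i < r, ω ∈ A i} := by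
      intro ω ω' hh hω i hi
      refine hA i ω ω' (fun k hk => hh k ?_) (hω i hi)
      rw [mem_Ico] at hk
      rw [mem_range]
      exact lt_of_lt_of_le hk.2 (Nat.mul_le_mul_right q hi)
    have hdisj : Disjoint (Finset.range (r * q)) (Finset.Ico (r * q) ((r + 1) * q)) := by
      rw [Finset.disjoint_left]
      intro k hk hk'
      rw [mem_range] at hk
      rw [mem_Ico] at hk'
      omega
    rw [e, indep_sets hdisj hdep (hA r), pow_succ]
    exact mul_le_mul h1 h2 hc measureReal_nonneg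

/-- the probability of one block -/
theorem block (hM : S_PMAX) (hW : S_WALK) {n i : ℕ} (hn : 2 ≤ n) (hi : i < n) {ε Δ L : ℝ} (hε : 0 < ε)
    (hΔ : |Δ| ≤ ε / 16)
    (hL : L = ε / (4 * n) * (Real.sqrt (2 * Real.pi))⁻¹ * Real.exp (-(n * ε ^ 2 / 128)))
    (hL2 : 8 * Real.exp (-(ε ^ 2 * n / 64)) ≤ L) :
    ∀ᶠ q : ℕ in atTop, L / 4 ≤ PP.real (E1 n q i Δ (ε / (4 * n)) ∩
      E2 q i (ε / 4 * Real.sqrt (2 * n * q))) := by
  have hn2 : (2 : ℝ) ≤ n := by exact_mod_cast hn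
  have hn0 : (0 : ℝ) < n := by linarith
  have hw : 0 < ε / (8 * n) := by positivity
  have hL0 : 0 < L := by rw [hL]; positivity
  -- the limit
  have h1 := hW n (by omega) n (fun v => tent Δ (ε / (8 * n)) (v ⟨i, hi⟩))
    ((tent_cont _ _).comp (continuous_apply _)) (fun v => by
      rw [abs_of_nonneg (tent_nonneg _ _ _)]; exact tent_le_one _ _ _)
  have h2 : L ≤ ∫ v : Fin n → ℝ, tent Δ (ε / (8 * n)) (v ⟨i, hi⟩)
      ∂(Measure.pi fun _ => gaussianReal 0 (1 / (n : ℝ≥0))) := by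
    rw [integral_comp_eval (μ := fun _ : Fin n => gaussianReal 0 (1 / (n : ℝ≥0)))
      (f := tent Δ (ε / (8 * n))) (tent_cont _ _).aestronglyMeasurable]
    rw [hL]
    refine (gauss_lb hn hε hΔ).trans ?_
    rw [← integral_indicator_one measurableSet_Icc]
    refine integral_mono ((integrable_const (1 : ℝ)).indicator measurableSet_Icc)
      (Integrable.mono' (integrable_const (1 : ℝ)) (tent_cont _ _).aestronglyMeasurable
        (Eventually.of_forall fun x => by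
          rw [Real.norm_eq_abs, abs_of_nonneg (tent_nonneg _ _ _)]; exact tent_le_one _ _ _)) ?_
    intro x
    by_cases hx : x ∈ Set.Icc (Δ - ε / (8 * n)) (Δ + ε / (8 * n))
    · rw [Set.indicator_of_mem hx, Pi.one_apply, tent_one hw]
      rw [abs_le]
      constructor <;> linarith [hx.1, hx.2]
    · rw [Set.indicator_of_notMem hx]
      exact tent_nonneg _ _ _
  have h3 := h1.eventually (lt_mem_nhds (show L / 2 < ∫ v : Fin n → ℝ, tent Δ (ε / (8 * n)) (v ⟨i, hi⟩)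
      ∂(Measure.pi fun _ => gaussianReal 0 (1 / (n : ℝ≥0))) by linarith))
  obtain ⟨q1, hq1⟩ := exists_nat_gt (ε ^ 2 * n / 8)
  filter_upwards [h3, eventually_ge_atTop (q1 + 1)] with q hq hq2
  have hq0 : (0 : ℝ) < q := by
    have : 0 < q := by omega
    exact_mod_cast this
  have hqr : ε ^ 2 * n / 8 < q := by
    have : ((q1 + 1 : ℕ) : ℝ) ≤ q := by exact_mod_cast hq2
    push_cast at this
    linarith
  obtain ⟨τ, hτ⟩ : ∃ τ : ℝ, τ = Real.sqrt (2 * n * q) := ⟨_, rfl⟩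
  have hτ2 : τ ^ 2 = 2 * n * q := by rw [hτ, Real.sq_sqrt (by positivity)]
  have hτ0 : 0 < τ := by rw [hτ]; positivity
  -- first event
  have h4 : L / 2 ≤ PP.real (E1 n q i Δ (ε / (4 * n))) := by
    refine hq.le.trans ?_
    have hm : MeasurableSet (E1 n q i Δ (ε / (4 * n))) := dep_meas dep1
    rw [← integral_indicator_one hm]
    have hI : Integrable (fun ω : ℕ → ℕ => (E1 n q i Δ (ε / (4 * n))).indicator (1 : (ℕ → ℕ) → ℝ) ω) PP :=
      (integrable_const (1 : ℝ)).indicator hm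
    refine integral_mono_of_nonneg (Eventually.of_forall fun ω => tent_nonneg _ _ _) hI
      (Eventually.of_forall fun ω => ?_)
    show tent Δ (ε / (8 * n)) (((Yw ω ((i + 1) * q) - Yw ω (i * q) : ℤ) : ℝ) /
      Real.sqrt (2 * n * q)) ≤ _
    by_cases hω : ω ∈ E1 n q i Δ (ε / (4 * n))
    · rw [Set.indicator_of_mem hω]
      exact tent_le_one _ _ _
    · rw [Set.indicator_of_notMem hω]
      refine (tent_zero hw ?_).le
      have : 2 * (ε / (8 * n)) = ε / (4 * n) := by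
        field_simp
        ring
      rw [this]
      exact not_le.1 hω
  -- second event
  have h5 : PP.real (E2 q i (ε / 4 * τ))ᶜ ≤ L / 4 := by
    have hb : ε / 4 * τ ≤ q := by
      refine abs_le_of_sq_le_sq' (b := (q : ℝ)) ?_ hq0.le |>.2
      rw [mul_pow, hτ2]
      nlinarith
    have h6 := hM (i * q) q (ε / 4 * τ / (4 * q)) (ε / 4 * τ) (by positivity) (by
      rw [div_le_div_iff₀ (by positivity) (by norm_num)]
      linarith)
    have e1 : 2 * (ε / 4 * τ / (4 * q)) ^ 2 * q - ε / 4 * τ / (4 * q) * (ε / 4 * τ) =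
        -(ε ^ 2 * n / 64) := by
      have : 2 * (ε / 4 * τ / (4 * q)) ^ 2 * q - ε / 4 * τ / (4 * q) * (ε / 4 * τ) =
          -(ε ^ 2 * τ ^ 2 / (128 * q)) := by
        field_simp
        ring
      rw [this, hτ2]
      field_simp
      ring
    rw [e1] at h6
    have e2 : (E2 q i (ε / 4 * τ))ᶜ = {ω : ℕ → ℕ | ∃ j ≤ q, ε / 4 * τ <
        |((Yw ω (i * q + j) - Yw ω (i * q) : ℤ) : ℝ)|} := by
      ext ω
      rw [Set.mem_compl_iff]
      unfold E2
      show (¬ ∀ j ≤ q, |((Yw ω (i * q + j) - Yw ω (i * q) : ℤ) : ℝ)| ≤ ε / 4 * τ) ↔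
        ∃ j ≤ q, ε / 4 * τ < |((Yw ω (i * q + j) - Yw ω (i * q) : ℤ) : ℝ)|
      push Not
      rfl
    rw [e2]
    linarith
  have h6 : PP.real (E1 n q i Δ (ε / (4 * n))) ≤ PP.real (E1 n q i Δ (ε / (4 * n)) ∩
      E2 q i (ε / 4 * τ)) + PP.real (E2 q i (ε / 4 * τ))ᶜ := by
    refine le_trans (measureReal_mono (fun ω hω => ?_)) (measureReal_union_le _ _)
    by_cases h : ω ∈ E2 q i (ε / 4 * τ)
    · exact Or.inl ⟨hω, h⟩
    · exact Or.inr h
  rw [← hτ]
  linarith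

theorem main (hM : S_PMAX) : S_TUB2 := by
  intro f hf hf0 ε hε
  have huc : UniformContinuousOn f (Set.Icc 0 1) := isCompact_Icc.uniformContinuousOn_of_continuous hf
  rw [Metric.uniformContinuousOn_iff] at huc
  obtain ⟨d, hd, hd2⟩ := huc (ε / 16) (by positivity)
  obtain ⟨N1, hN1⟩ := exists_nat_gt (1 / d)
  obtain ⟨N2, hN2⟩ := choice hε
  obtain ⟨n, hn⟩ : ∃ n : ℕ, n = N1 + N2 + 2 := ⟨_, rfl⟩
  have hn2 : 2 ≤ n := by omega
  have hn0 : (0 : ℝ) < n := by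
    have : 0 < n := by omega
    exact_mod_cast this
  have hnd : 1 / (n : ℝ) < d := by
    have : (N1 : ℝ) ≤ n := by exact_mod_cast (by omega : N1 ≤ n)
    rw [div_lt_iff₀ hd] at hN1
    rw [div_lt_iff₀ hn0]
    nlinarith
  have hosc : ∀ x y : ℝ, 0 ≤ x → x ≤ 1 → 0 ≤ y → y ≤ 1 → |x - y| ≤ 1 / n → |f x - f y| ≤ ε / 16 := by
    intro x y hx0 hx1 hy0 hy1 hxy
    have := hd2 x ⟨hx0, hx1⟩ y ⟨hy0, hy1⟩ (by
      rw [Real.dist_eq]
      exact lt_of_le_of_lt hxy hnd)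
    rw [Real.dist_eq] at this
    exact this.le
  obtain ⟨Δ, hΔ⟩ : ∃ Δ : ℕ → ℝ, Δ = fun i : ℕ => f (((i : ℝ) + 1) / n) - f ((i : ℝ) / n) := ⟨_, rfl⟩
  have hΔb : ∀ i < n, |Δ i| ≤ ε / 16 := by
    intro i hi
    have hi' : (i : ℝ) + 1 ≤ n := by exact_mod_cast hi
    rw [hΔ]
    refine hosc _ _ (by positivity) (by rw [div_le_one hn0]; exact hi') (by positivity)
      (by rw [div_le_one hn0]; linarith) ?_
    rw [← sub_div, add_sub_cancel_left, abs_of_pos (by positivity)]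
  obtain ⟨L, hL⟩ : ∃ L : ℝ, L = ε / (4 * n) * (Real.sqrt (2 * Real.pi))⁻¹ *
    Real.exp (-(n * ε ^ 2 / 128)) := ⟨_, rfl⟩
  have hL2 : 8 * Real.exp (-(ε ^ 2 * n / 64)) ≤ L := by
    rw [hL]
    exact hN2 n (by omega)
  have hL0 : 0 < L := by rw [hL]; positivity
  have hall : ∀ᶠ q : ℕ in atTop, ∀ i ∈ Finset.range n, L / 4 ≤ PP.real (E1 n q i (Δ i) (ε / (4 * n)) ∩
      E2 q i (ε / 4 * Real.sqrt (2 * n * q))) := by
    rw [Filter.eventually_all_finset]
    intro i hi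
    rw [Finset.mem_range] at hi
    exact block hM Pool.Agent.H55.DK.WALK.main hn2 hi hε (hΔb i hi) hL hL2
  obtain ⟨q0, hq0⟩ := eventually_atTop.1 hall
  refine ⟨n, by omega, (L / 4) ^ n, by positivity, q0 + 1, fun q hq => ?_⟩
  have h1 := prod_lb (q := q) (A := fun i => E1 n q i (Δ i) (ε / (4 * n)) ∩
    E2 q i (ε / 4 * Real.sqrt (2 * n * q))) (fun i => dep_inter dep1 dep2) (c := L / 4) (by positivity) n
    (fun i hi => hq0 q (by omega) i (Finset.mem_range.2 hi))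
  refine h1.trans (measureReal_mono (fun ω hω => ?_))
  have hω' : ∀ i < n, ω ∈ E1 n q i (Δ i) (ε / (4 * n)) ∩ E2 q i (ε / 4 * Real.sqrt (2 * n * q)) := hω
  have hq1 : (0 : ℝ) < q := by
    have : 0 < q := by omega
    exact_mod_cast this
  obtain ⟨τ, hτ⟩ : ∃ τ : ℝ, τ = Real.sqrt (2 * n * q) := ⟨_, rfl⟩
  have hτ0 : 0 < τ := by rw [hτ]; positivity
  have hτ' : Real.sqrt (2 * ((n * q : ℕ) : ℝ)) = τ := by
    rw [hτ]
    congr 1
    push_cast
    ring
  have hnode : ∀ i ≤ n, |((Yw ω (i * q) : ℤ) : ℝ) / τ - f ((i : ℝ) / n)| ≤ i * (ε / (4 * n)) := by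
    intro i
    induction i with
    | zero =>
      intro _
      have : Yw ω (0 * q) = 0 := by
        unfold Yw
        simp
      rw [this]
      simp [hf0]
    | succ i ih =>
      intro hi
      have h2 := ih (by omega)
      have h3 : |((Yw ω ((i + 1) * q) - Yw ω (i * q) : ℤ) : ℝ) / τ - Δ i| ≤ ε / (4 * n) := by
        have := (hω' i (by omega)).1
        unfold E1 at this
        rw [hτ]
        exact this
      rw [hΔ] at h3
      push_cast at h3 ⊢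
      rw [sub_div] at h3
      rw [abs_le] at h2 h3 ⊢
      constructor <;> linarith [h2.1, h2.2, h3.1, h3.2]
  show ∀ j ≤ n * q, |((Yw ω j : ℤ) : ℝ) / Real.sqrt (2 * ((n * q : ℕ) : ℝ)) -
    f ((j : ℝ) / ((n * q : ℕ) : ℝ))| ≤ ε
  intro j hj
  rw [hτ']
  obtain ⟨i, l, hi, hl, hjl⟩ : ∃ i l : ℕ, i < n ∧ l ≤ q ∧ j = i * q + l := by
    rcases Nat.lt_or_ge j (n * q) with h | h
    · refine ⟨j / q, j % q, ?_, (Nat.mod_lt _ (by omega)).le, ?_⟩
      · exact (Nat.div_lt_iff_lt_mul (by omega)).2 h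
      · rw [Nat.mul_comm]
        exact (Nat.div_add_mod j q).symm
    · have hjn : j = n * q := le_antisymm hj h
      refine ⟨n - 1, q, by omega, le_rfl, ?_⟩
      rw [hjn]
      obtain ⟨m, hm⟩ : ∃ m, n = m + 1 := ⟨n - 1, by omega⟩
      rw [hm, Nat.add_sub_cancel]
      ring
  have h2 := hnode i hi.le
  have h3 : |((Yw ω (i * q + l) - Yw ω (i * q) : ℤ) : ℝ)| ≤ ε / 4 * τ := by
    have := (hω' i hi).2 l hl
    rw [hτ]
    exact this
  have h4 : (i : ℝ) * (ε / (4 * n)) ≤ ε / 4 := by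
    have : (i : ℝ) ≤ n := by exact_mod_cast hi.le
    calc (i : ℝ) * (ε / (4 * n)) ≤ n * (ε / (4 * n)) := mul_le_mul_of_nonneg_right this (by positivity)
      _ = ε / 4 := by field_simp
  have h5 : |((Yw ω (i * q + l) : ℤ) : ℝ) / τ - ((Yw ω (i * q) : ℤ) : ℝ) / τ| ≤ ε / 4 := by
    rw [← sub_div, abs_div, abs_of_pos hτ0, div_le_iff₀ hτ0]
    push_cast at h3
    exact h3
  have hj2 : (j : ℝ) / ((n * q : ℕ) : ℝ) = (i : ℝ) / n + (l : ℝ) / (n * q) := by
    rw [hjl]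
    push_cast
    field_simp
  have hl2 : (l : ℝ) / (n * q) ≤ 1 / n := by
    rw [div_le_div_iff₀ (by positivity) hn0]
    have : (l : ℝ) ≤ q := by exact_mod_cast hl
    nlinarith
  have hl0 : (0 : ℝ) ≤ (l : ℝ) / (n * q) := by positivity
  have hi1 : (i : ℝ) / n + 1 / n ≤ 1 := by
    rw [← add_div, div_le_one hn0]
    exact_mod_cast hi
  have hi0 : (0 : ℝ) ≤ (i : ℝ) / n := by positivity
  have h6 : |f ((i : ℝ) / n) - f ((j : ℝ) / ((n * q : ℕ) : ℝ))| ≤ ε / 16 := by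
    refine hosc _ _ hi0 (by linarith) (by rw [hj2]; positivity) (by rw [hj2]; linarith) ?_
    rw [hj2, sub_add_cancel_left, abs_neg, abs_of_nonneg hl0]
    exact hl2
  rw [hjl] at h6 ⊢
  rw [abs_le] at h2 h5 h6 ⊢
  constructor <;> linarith [h2.1, h2.2, h5.1, h5.2, h6.1, h6.2]

end Pool.Agent.H55.BZ.TUB2
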