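import Pool.Agent.H55.BZ.Stm
import Pool.Agent.H55.DK.CPATH

/-! BZ-CDT (helper91): all terms of the trajectory of `T`. -/

set_option autoImplicit false

namespace Pool.Agent.H55.BZ.CDT

open Finset Filter Topology
open Pool.Agent.H55.DK (Yn)
open Pool.Agent.Results.MP_f7abf1_nt.BlockLaw (T Syr wait)
open Pool.Agent.H55.DK.CPATH (E E_zero E_nonneg E_le_sum syr_pos)

theorem T_tt {m : ℕ} (hm : m % 2 = 1) (v j : ℕ) : T^[v + UL.S m j] (2 ^ v * m) = Syr^[j] m := by
  rw [add_comm, Function.iterate_add_apply, UL.T_two v m v le_rfl, Nat.sub_self, pow_zero, one_mul,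
    UL.T_S hm]

theorem T_mid {m : ℕ} (hm : m % 2 = 1) (v j s : ℕ) (h1 : 1 ≤ s) (h2 : s ≤ wait m j) :
    T^[v + UL.S m j + s] (2 ^ v * m) = (3 * Syr^[j] m + 1) / 2 ^ s := by
  rw [add_comm, Function.iterate_add_apply, T_tt hm]
  have hw : 2 ^ wait m j ∣ 3 * Syr^[j] m + 1 := pow_padicValNat_dvd
  exact UL.T_block (UL.syr_iter_odd hm j) s h1 ((pow_dvd_pow 2 h2).trans hw)

theorem pos (v m : ℕ) (J k : ℕ) (hk : k < v + UL.S m J) :
    k < v ∨ ∃ j < J, ∃ s ≤ wait m j, k = v + UL.S m j + s := by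
  induction J with
  | zero =>
    left
    simpa [UL.S] using hk
  | succ J ih =>
    rcases Nat.lt_or_ge k (v + UL.S m J) with h | h
    · rcases ih h with h1 | ⟨j, hj, s, hs, h2⟩
      · exact Or.inl h1
      · exact Or.inr ⟨j, by omega, s, hs, h2⟩
    · rw [UL.S_succ] at hk
      exact Or.inr ⟨J, by omega, k - (v + UL.S m J), by omega, by omega⟩

theorem E_le_one {m : ℕ} (hm : m % 2 = 1) {J : ℕ} (h : ∀ i < J, J ≤ Syr^[i] m) {j : ℕ} (hj : j ≤ J) :
    E m j ≤ 1 := by
  refine (E_le_sum hm j).trans ?_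
  rcases Nat.eq_zero_or_pos j with h0 | h0
  · subst h0
    simp
  · have hJ : (0 : ℝ) < J := by exact_mod_cast (h0.trans_le hj)
    calc ∑ i ∈ range j, 1 / ((Syr^[i] m : ℕ) : ℝ) ≤ ∑ _i ∈ range j, 1 / (J : ℝ) := by
          refine Finset.sum_le_sum fun i hi => ?_
          apply one_div_le_one_div_of_le hJ
          exact_mod_cast h i ((Finset.mem_range.1 hi).trans_le hj)
      _ = j * (1 / (J : ℝ)) := by rw [Finset.sum_const, Finset.card_range, nsmul_eq_mul]
      _ ≤ J * (1 / (J : ℝ)) := by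
          refine mul_le_mul_of_nonneg_right ?_ (by positivity)
          exact_mod_cast hj
      _ = 1 := by field_simp

theorem main : S_CDT := by
  intro v m J hm hJ k hk
  have hlog2u : Real.log 2 ≤ 7 / 10 := by
    have := Real.log_two_lt_d9
    linarith
  have h43 : Real.log (4 / 3) ≤ 1 / 3 := UL.log43_hi
  have h43' : (1 / 4 : ℝ) ≤ Real.log (4 / 3) := UL.log43_lo
  have hlog2'' : (1 / 2 : ℝ) ≤ Real.log 2 := by
    have := Real.log_two_gt_d9
    linarith
  have heq := UL.log43_eq
  set c3 := Real.log 3 / 2 with hc3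
  have hc0 : 0 ≤ c3 := by linarith
  have hc1 : c3 ≤ 1 := by linarith
  have hv : (0 : ℝ) ≤ v := Nat.cast_nonneg v
  have hvc : v * c3 ≤ v := by nlinarith
  have hvc0 : 0 ≤ v * c3 := by positivity
  have hE : ∀ j ≤ J, 0 ≤ E m j ∧ E m j ≤ 1 := fun j hj => ⟨E_nonneg hm j, E_le_one hm hJ hj⟩
  have hm0 : (0 : ℝ) < m := by
    have : 0 < m := by omega
    exact_mod_cast this
  have hlogn : Real.log ((2 ^ v * m : ℕ) : ℝ) = v * Real.log 2 + Real.log m := by
    push_cast
    rw [Real.log_mul (by positivity) hm0.ne', Real.log_pow]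
  have htime : ∀ j, ((v + UL.S m j : ℕ) : ℝ) - 2 * j = v - ((Yn m j : ℤ) : ℝ) := by
    intro j
    unfold Yn
    push_cast
    ring
  have hdev : ∀ j, devT (2 ^ v * m) (v + UL.S m j) = c3 * (Yn m j : ℤ) + E m j - v * c3 := by
    intro j
    unfold devT E Yn
    rw [T_tt hm, hlogn, heq, hc3]
    push_cast
    ring
  have hcase0 : ∀ j ≤ J, |devT (2 ^ v * m) (v + UL.S m j) - c3 * (Yn m j : ℤ)| ≤
      |((Yn m (j + 1) - Yn m j : ℤ) : ℝ)| + (v + 10) ∧
      |((v + UL.S m j : ℕ) : ℝ) - 2 * j| ≤ v + 3 + |((Yn m j : ℤ) : ℝ)| + |((Yn m (j + 1) : ℤ) : ℝ)| := by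
    intro j hj
    obtain ⟨h5, h6⟩ := hE j hj
    have a1 := abs_nonneg ((Yn m (j + 1) - Yn m j : ℤ) : ℝ)
    have a2 := abs_nonneg ((Yn m (j + 1) : ℤ) : ℝ)
    constructor
    · rw [hdev, abs_le]
      constructor <;> linarith
    · rw [htime, abs_le]
      have b1 := le_abs_self ((Yn m j : ℤ) : ℝ)
      have b2 := neg_abs_le ((Yn m j : ℤ) : ℝ)
      constructor <;> linarith
  rcases hk.lt_or_eq with hk | hk
  · rcases pos v m J k hk with h3 | ⟨j, hj, s, hs, rfl⟩
    · refine ⟨0, Nat.zero_le J, ?_, ?_⟩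
      · have hY : Yn m 0 = 0 := by simp [Yn, UL.S]
        have hd : devT (2 ^ v * m) k = -(k * c3) := by
          unfold devT
          rw [UL.T_two v m k h3.le, hlogn]
          push_cast
          rw [Real.log_mul (by positivity) hm0.ne', Real.log_pow, Nat.cast_sub h3.le, heq, hc3]
          ring
        rw [hd, hY]
        have a1 := abs_nonneg ((Yn m (0 + 1) - 0 : ℤ) : ℝ)
        have hkv : (k : ℝ) ≤ v := by exact_mod_cast h3.le
        have hk0 : (0 : ℝ) ≤ k := Nat.cast_nonneg k
        have b1 : 0 ≤ k * c3 := by positivity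
        have b2 : k * c3 ≤ v := by nlinarith
        rw [Int.cast_zero, mul_zero, sub_zero, abs_le]
        constructor <;> linarith
      · have a1 := abs_nonneg ((Yn m 0 : ℤ) : ℝ)
        have a2 := abs_nonneg ((Yn m (0 + 1) : ℤ) : ℝ)
        have hkv : (k : ℝ) ≤ v := by exact_mod_cast h3.le
        have hk0 : (0 : ℝ) ≤ k := Nat.cast_nonneg k
        rw [Nat.cast_zero, mul_zero, sub_zero, abs_of_nonneg hk0]
        linarith
    · refine ⟨j, hj.le, ?_⟩
      rcases Nat.eq_zero_or_pos s with h0 | h0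
      · subst h0
        rw [add_zero]
        exact hcase0 j hj.le
      · obtain ⟨h5, h6⟩ := hE j hj.le
        have hwY : ((wait m j : ℕ) : ℝ) = 2 - ((Yn m (j + 1) - Yn m j : ℤ) : ℝ) := by
          unfold Yn
          rw [UL.S_succ]
          push_cast
          ring
        have hsw : (s : ℝ) ≤ ((wait m j : ℕ) : ℝ) := by exact_mod_cast hs
        have hs1 : (1 : ℝ) ≤ s := by exact_mod_cast h0
        constructor
        · have hx : 1 ≤ Syr^[j] m := syr_pos hm j
          have hxR : (1 : ℝ) ≤ ((Syr^[j] m : ℕ) : ℝ) := by exact_mod_cast hx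
          have hw : 2 ^ wait m j ∣ 3 * Syr^[j] m + 1 := pow_padicValNat_dvd
          have hd : 2 ^ s ∣ 3 * Syr^[j] m + 1 := (pow_dvd_pow 2 hs).trans hw
          have h4 : (((3 * Syr^[j] m + 1) / 2 ^ s : ℕ) : ℝ) =
              (3 * ((Syr^[j] m : ℕ) : ℝ) + 1) / 2 ^ s := by
            rw [Nat.cast_div hd (by positivity)]
            push_cast
            rfl
          have h5' : Real.log (3 * ((Syr^[j] m : ℕ) : ℝ) + 1) ≤
              2 * Real.log 2 + Real.log ((Syr^[j] m : ℕ) : ℝ) := by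
            have h6 : Real.log (3 * ((Syr^[j] m : ℕ) : ℝ) + 1) ≤
                Real.log (2 ^ 2 * ((Syr^[j] m : ℕ) : ℝ)) :=
              Real.log_le_log (by positivity) (by linarith)
            rw [Real.log_mul (by norm_num) (by positivity), Real.log_pow] at h6
            push_cast at h6
            exact h6
          have h5'' : Real.log ((Syr^[j] m : ℕ) : ℝ) ≤ Real.log (3 * ((Syr^[j] m : ℕ) : ℝ) + 1) :=
            Real.log_le_log (by linarith) (by linarith)
          have hd2 : devT (2 ^ v * m) (v + UL.S m j + s) = c3 * (Yn m j : ℤ) + E m j - v * c3 +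
              (Real.log (3 * ((Syr^[j] m : ℕ) : ℝ) + 1) - Real.log ((Syr^[j] m : ℕ) : ℝ)) -
              s * c3 := by
            rw [← hdev j]
            unfold devT
            rw [T_mid hm v j s h0 hs, T_tt hm, h4, Real.log_div (by positivity) (by positivity),
              Real.log_pow, heq, hc3]
            push_cast
            ring
          rw [hd2]
          have hsc : s * c3 ≤ s := by nlinarith
          have hsc0 : 0 ≤ s * c3 := by positivity
          have b1 := neg_abs_le ((Yn m (j + 1) - Yn m j : ℤ) : ℝ)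
          have b2 := abs_nonneg ((Yn m (j + 1) - Yn m j : ℤ) : ℝ)
          rw [abs_le]
          constructor <;> linarith
        · have h7 := htime j
          have h8 : ((v + UL.S m j + s : ℕ) : ℝ) - 2 * j = v - ((Yn m j : ℤ) : ℝ) + s := by
            push_cast at h7 ⊢
            linarith
          rw [h8, abs_le]
          rw [Int.cast_sub] at hwY
          have b1 := le_abs_self ((Yn m j : ℤ) : ℝ)
          have b2 := neg_abs_le ((Yn m (j + 1) : ℤ) : ℝ)
          have b3 := abs_nonneg ((Yn m j : ℤ) : ℝ)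
          have b4 := abs_nonneg ((Yn m (j + 1) : ℤ) : ℝ)
          constructor <;> linarith
  · exact ⟨J, le_rfl, by rw [hk]; exact hcase0 J le_rfl⟩

end Pool.Agent.H55.BZ.CDT
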