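import Pool.Agent.H55.BZ.Stm
import Pool.Agent.H55.DK.TV

/-!
# BZ-TVP: from sets to functions, for an arbitrary invariant set
-/

set_option autoImplicit false

namespace Pool.Agent.H55.BZ.TVP

open Finset Filter Topology MeasureTheory ProbabilityTheory
open Pool.Agent.H55.DK (oddSum)
open Pool.Agent.H55.DK.TV (layer oddCount_eq oddSum_one_le)
open Pool.Agent.H499R2.ND.TJ (PP)
open Pool.Agent.Results.MP_f7abf1_nt.BlockLaw (T Syr wait blocks Admissible prob oddCount HasDensity)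

open Classical in
theorem main : S_TVP := by
  intro P hP δ hδ κ ε hκ hε
  obtain ⟨δ', h0, h1, h2, _, h3⟩ := Pool.Agent.Results.MP_f7abf1_nt.BlockLaw.result.1 P hP
  have hδ' : δ' = δ := tendsto_nhds_unique h2 hδ
  subst hδ'
  obtain ⟨X₀, hX⟩ := h3 κ (ε / 2) hκ (by positivity)
  obtain ⟨N, hN⟩ := exists_nat_gt ((1 + |δ'| / 2) * 2 / ε)
  have hN0r : (0 : ℝ) < N := lt_of_le_of_lt (by positivity) hN
  have hN0 : 0 < N := by exact_mod_cast hN0r
  have hN' : (1 + |δ'| / 2) / N ≤ ε / 2 := by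
    rw [div_le_iff₀ hN0r]
    rw [div_lt_iff₀ hε] at hN
    linarith
  filter_upwards [eventually_ge_atTop X₀] with X hX₀ r b h4 h5 Φ hΦ
  have hadm : Admissible κ X r (fun i => i * b) := by
    refine ⟨by simp, ?_, by simpa using h5⟩
    intro i _
    push_cast
    linarith
  set K : ℕ → ℕ := fun i => i * b with hK
  set Ev : ℕ → Set (Fin r → ℕ) := fun i => {v | (i : ℝ) / N ≤ Φ v} with hEv
  have hi : ∀ i : ℕ, |oddCount X (fun n => P n ∧ blocks K r (wait n) ∈ Ev i) -
      δ' / 2 * prob K r (Ev i) * X| ≤ ε / 2 * X := fun i => hX X hX₀ r K hadm (Ev i)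
  have hX0 : (0 : ℝ) ≤ X := Nat.cast_nonneg X
  -- the sums
  have hA : |oddSum X (fun m => if P m then Φ (blocks K r (wait m)) else 0) -
      (1 / (N : ℝ)) * ∑ i ∈ Icc 1 N, oddCount X (fun n => P n ∧ blocks K r (wait n) ∈ Ev i)| ≤
      X / N := by
    have e1 : (1 / (N : ℝ)) * ∑ i ∈ Icc 1 N,
        oddCount X (fun n => P n ∧ blocks K r (wait n) ∈ Ev i) =
        oddSum X (fun m => if P m then (1 / (N : ℝ)) * (∑ i ∈ Icc 1 N,
          if (i : ℝ) / N ≤ Φ (blocks K r (wait m)) then (1 : ℝ) else 0) else 0) := by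
      simp only [oddCount_eq]
      unfold oddSum
      rw [sum_comm, mul_sum]
      refine sum_congr rfl fun m _ => ?_
      by_cases hm : P m
      · simp only [hm, true_and, if_true]
        rfl
      · simp [hm]
    rw [e1]
    unfold oddSum
    rw [← sum_sub_distrib]
    refine (abs_sum_le_sum_abs _ _).trans ?_
    have e2 : ∀ m ∈ (range (X + 1)).filter Odd,
        |(if P m then Φ (blocks K r (wait m)) else 0) - (if P m then (1 / (N : ℝ)) * (∑ i ∈ Icc 1 N,
          if (i : ℝ) / N ≤ Φ (blocks K r (wait m)) then (1 : ℝ) else 0) else 0)| ≤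
        (1 / N) * 1 := by
      intro m _
      by_cases hm : P m
      · simp only [hm, if_true]
        obtain ⟨g1, g2⟩ := layer N hN0 (Φ (blocks K r (wait m))) (hΦ _).1 (hΦ _).2
        rw [abs_of_nonneg (by linarith)]
        linarith
      · simp only [hm, if_false, sub_zero, abs_zero]
        positivity
    refine (sum_le_sum e2).trans ?_
    rw [← mul_sum]
    have := oddSum_one_le X
    unfold oddSum at this
    calc (1 / (N : ℝ)) * ∑ i ∈ range (X + 1) with Odd i, (1 : ℝ) ≤ (1 / (N : ℝ)) * X := by gcongr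
      _ = X / N := by ring
  -- the model
  have hmeas : Measurable (fun ω : ℕ → ℕ => blocks K r (fun j => ω j + 1)) := by
    apply measurable_pi_lambda
    intro i
    unfold blocks
    apply Finset.measurable_sum
    intro j _
    exact (measurable_pi_apply j).add_const 1
  have hB : |(∫ ω : ℕ → ℕ, Φ (blocks K r (fun j => ω j + 1)) ∂PP) -
      (1 / (N : ℝ)) * ∑ i ∈ Icc 1 N, prob K r (Ev i)| ≤ 1 / N := by
    have hme : ∀ i : ℕ, MeasurableSet {ω : ℕ → ℕ | blocks K r (fun j => ω j + 1) ∈ Ev i} :=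
      fun i => Pool.Agent.Results.MP_f7abf1_nt.BlockLaw.meas_blocks K r (Ev i)
    have e1 : ∀ i : ℕ, prob K r (Ev i) = ∫ ω : ℕ → ℕ,
        (if (i : ℝ) / N ≤ Φ (blocks K r (fun j => ω j + 1)) then (1 : ℝ) else 0) ∂PP := by
      intro i
      unfold prob
      rw [Pool.Agent.Results.MP_f7abf1_nt.BlockLaw.model_eq]
      have e2 : (fun ω : ℕ → ℕ =>
          (if (i : ℝ) / N ≤ Φ (blocks K r (fun j => ω j + 1)) then (1 : ℝ) else 0)) =
          Set.indicator {ω : ℕ → ℕ | blocks K r (fun j => ω j + 1) ∈ Ev i} (fun _ => (1 : ℝ)) := by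
        funext ω
        rw [Set.indicator_apply]
        rfl
      rw [e2, integral_indicator (hme i), setIntegral_const, smul_eq_mul, mul_one]
    have hint : ∀ i : ℕ, Integrable (fun ω : ℕ → ℕ =>
        (if (i : ℝ) / N ≤ Φ (blocks K r (fun j => ω j + 1)) then (1 : ℝ) else 0)) PP := by
      intro i
      have e2 : (fun ω : ℕ → ℕ =>
          (if (i : ℝ) / N ≤ Φ (blocks K r (fun j => ω j + 1)) then (1 : ℝ) else 0)) =
          Set.indicator {ω : ℕ → ℕ | blocks K r (fun j => ω j + 1) ∈ Ev i} (fun _ => (1 : ℝ)) := by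
        funext ω
        rw [Set.indicator_apply]
        rfl
      rw [e2]
      exact (integrable_const 1).indicator (hme i)
    have hΦi : Integrable (fun ω : ℕ → ℕ => Φ (blocks K r (fun j => ω j + 1))) PP := by
      refine Integrable.mono' (g := fun _ => (1 : ℝ)) (integrable_const 1) ?_ ?_
      · exact ((measurable_of_countable Φ).comp hmeas).aestronglyMeasurable
      · refine Eventually.of_forall fun ω => ?_
        rw [Real.norm_eq_abs, abs_of_nonneg (hΦ _).1]
        exact (hΦ _).2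
    simp only [e1]
    rw [← integral_finsetSum _ (fun i _ => hint i), ← integral_const_mul,
      ← integral_sub hΦi ((integrable_finsetSum _ fun i _ => hint i).const_mul _)]
    rw [← Real.norm_eq_abs]
    refine (norm_integral_le_of_norm_le_const (μ := PP) (C := 1 / (N : ℝ)) ?_).trans
      (le_of_eq (by rw [probReal_univ, mul_one]))
    refine Eventually.of_forall fun ω => ?_
    obtain ⟨g1, g2⟩ := layer N hN0 (Φ (blocks K r (fun j => ω j + 1))) (hΦ _).1 (hΦ _).2
    rw [Real.norm_eq_abs, abs_of_nonneg (by linarith)]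
    linarith
  -- the middle term
  have hC : |(1 / (N : ℝ)) * ∑ i ∈ Icc 1 N,
      oddCount X (fun n => P n ∧ blocks K r (wait n) ∈ Ev i) -
      δ' / 2 * ((1 / (N : ℝ)) * ∑ i ∈ Icc 1 N, prob K r (Ev i)) * X| ≤ ε / 2 * X := by
    have e1 : (1 / (N : ℝ)) * ∑ i ∈ Icc 1 N,
        oddCount X (fun n => P n ∧ blocks K r (wait n) ∈ Ev i) -
        δ' / 2 * ((1 / (N : ℝ)) * ∑ i ∈ Icc 1 N, prob K r (Ev i)) * X =
        (1 / (N : ℝ)) * ∑ i ∈ Icc 1 N, (oddCount X (fun n => P n ∧ blocks K r (wait n) ∈ Ev i) -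
          δ' / 2 * prob K r (Ev i) * X) := by
      rw [sum_sub_distrib, ← sum_mul, ← mul_sum]
      ring
    rw [e1, abs_mul, abs_of_pos (show 0 < 1 / (N : ℝ) by positivity)]
    have e2 : |∑ i ∈ Icc 1 N, (oddCount X (fun n => P n ∧ blocks K r (wait n) ∈ Ev i) -
          δ' / 2 * prob K r (Ev i) * X)| ≤ N * (ε / 2 * X) := by
      refine (abs_sum_le_sum_abs _ _).trans ((sum_le_sum fun i _ => hi i).trans (le_of_eq ?_))
      rw [sum_const, Nat.card_Icc, nsmul_eq_mul]
      simp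
    calc (1 / (N : ℝ)) * |∑ i ∈ Icc 1 N, (oddCount X (fun n => P n ∧ blocks K r (wait n) ∈ Ev i) -
          δ' / 2 * prob K r (Ev i) * X)| ≤ (1 / (N : ℝ)) * (N * (ε / 2 * X)) := by gcongr
      _ = ε / 2 * X := by field_simp
  set a := oddSum X (fun m => if P m then Φ (blocks K r (wait m)) else 0)
  set c := (1 / (N : ℝ)) * ∑ i ∈ Icc 1 N, oddCount X (fun n => P n ∧ blocks K r (wait n) ∈ Ev i)
  set I := ∫ ω : ℕ → ℕ, Φ (blocks K r (fun j => ω j + 1)) ∂PP
  set q := (1 / (N : ℝ)) * ∑ i ∈ Icc 1 N, prob K r (Ev i)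
  have hD : |δ' / 2 * q * X - δ' / 2 * I * X| ≤ |δ'| / 2 * (1 / N) * X := by
    have e1 : δ' / 2 * q * X - δ' / 2 * I * X = -(δ' / 2 * (I - q) * X) := by ring
    rw [e1, abs_neg, abs_mul, abs_mul, abs_of_nonneg hX0, abs_div, abs_of_pos (show (0 : ℝ) < 2 by norm_num)]
    gcongr
  have hE : a - δ' / 2 * I * X = (a - c) + (c - δ' / 2 * q * X) + (δ' / 2 * q * X - δ' / 2 * I * X) := by
    ring
  rw [hE]
  refine (abs_add_three _ _ _).trans ?_
  have hF : X / N + ε / 2 * X + |δ'| / 2 * (1 / N) * X = ((1 + |δ'| / 2) / N) * X + ε / 2 * X := by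
    ring
  calc _ ≤ X / N + ε / 2 * X + |δ'| / 2 * (1 / N) * X := by gcongr
    _ = ((1 + |δ'| / 2) / N) * X + ε / 2 * X := hF
    _ ≤ ε / 2 * X + ε / 2 * X := by gcongr
    _ = ε * X := by ring

end Pool.Agent.H55.BZ.TVP
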