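import Pool.Agent.H55.BZ.CTL
import Pool.Agent.H55.BZ.TVP
import Pool.Agent.H55.BZ.CDT
import Pool.Agent.H55.BZ.DETT2
import Pool.Agent.H55.BZ.FCL
import Pool.Agent.H55.BZ.CNT

/-!
# Project BZ: everything together
-/

set_option autoImplicit false

namespace Pool.Agent.H55.BZ

open Finset Filter Topology MeasureTheory ProbabilityTheory
open scoped NNReal
open Pool.Agent.Results.MP_f7abf1_nt.BlockLaw (T Syr wait oddCount HasDensity)

theorem ctl : S_CTL :=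
  CTL.main (DK.STAGE.main (DK.COMP.main DK.ERR.main) DK.MEM.main DK.WMAX.main)
    (DK.PULL.main (DK.COMP.main DK.ERR.main) DK.MEM.main) DK.COUNT.main

theorem dett : S_DETT := DETT.main CDT.main

theorem fcl : S_FCL := FCL.main ctl TVP.main DK.SUM.main DK.WALK.main DK.BM.main dett

theorem cnt (hTB : S_TUB2) : S_CNT := CNT.main ctl TVP.main dett hTB

/-- the complement of an invariant set -/
theorem compl_inv {P : ℕ → Prop} (hP : ∀ n, 1 ≤ n → (P n ↔ P (T n))) :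
    ∀ n, 1 ≤ n → ((fun n => ¬ P n) n ↔ (fun n => ¬ P n) (T n)) := fun n hn => not_congr (hP n hn)

theorem compl_dens {P : ℕ → Prop} {δ : ℝ} (h : HasDensity P δ) : HasDensity (fun n => ¬ P n) (1 - δ) := by
  have h1 : Tendsto (fun N : ℕ => 1 - ({n : ℕ | 1 ≤ n ∧ n ≤ N ∧ P n}.ncard : ℝ) / N) atTop (𝓝 (1 - δ)) :=
    tendsto_const_nhds.sub h
  refine h1.congr' ?_
  filter_upwards [eventually_ge_atTop 1] with N hN
  have hN0 : (0 : ℝ) < N := by exact_mod_cast hN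
  have hf1 : {n : ℕ | 1 ≤ n ∧ n ≤ N ∧ P n}.Finite := (Set.finite_Iic N).subset fun n hn => hn.2.1
  have hf2 : {n : ℕ | 1 ≤ n ∧ n ≤ N ∧ ¬ P n}.Finite := (Set.finite_Iic N).subset fun n hn => hn.2.1
  have hd : Disjoint {n : ℕ | 1 ≤ n ∧ n ≤ N ∧ P n} {n : ℕ | 1 ≤ n ∧ n ≤ N ∧ ¬ P n} := by
    rw [Set.disjoint_left]
    intro n h1 h2
    exact h2.2.2 h1.2.2
  have hu := Set.ncard_union_eq hd hf1 hf2
  have e : {n : ℕ | 1 ≤ n ∧ n ≤ N ∧ P n} ∪ {n : ℕ | 1 ≤ n ∧ n ≤ N ∧ ¬ P n} = (Finset.Icc 1 N : Finset ℕ) := by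
    ext n
    simp only [Set.mem_union, Set.mem_ofPred_eq, Finset.coe_Icc, Set.mem_Icc]
    tauto
  rw [e, Set.ncard_coe_finset, Nat.card_Icc] at hu
  have hu' : (N : ℝ) = ({n : ℕ | 1 ≤ n ∧ n ≤ N ∧ P n}.ncard : ℝ) + ({n : ℕ | 1 ≤ n ∧ n ≤ N ∧ ¬ P n}.ncard : ℝ) := by
    have : N = {n : ℕ | 1 ≤ n ∧ n ≤ N ∧ P n}.ncard + {n : ℕ | 1 ≤ n ∧ n ≤ N ∧ ¬ P n}.ncard := by omega
    exact_mod_cast this
  rw [eq_div_iff hN0.ne', sub_mul, div_mul_cancel₀ _ hN0.ne']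
  linarith

/-- densities of invariant sets -/
theorem dens {P : ℕ → Prop} (hP : ∀ n, 1 ≤ n → (P n ↔ P (T n))) : ∃ δ : ℝ, 0 ≤ δ ∧ δ ≤ 1 ∧ HasDensity P δ ∧
    (0 < δ ↔ ∃ n, 1 ≤ n ∧ P n) ∧ (δ = 1 ↔ ∀ n, 1 ≤ n → P n) := by
  obtain ⟨δ, h0, h1, h2, h3, _⟩ := Pool.Agent.Results.MP_f7abf1_nt.BlockLaw.result.1 P hP
  obtain ⟨δ', k0, k1, k2, k3, _⟩ := Pool.Agent.Results.MP_f7abf1_nt.BlockLaw.result.1 _ (compl_inv hP)
  have e : δ' = 1 - δ := tendsto_nhds_unique k2 (compl_dens h2)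
  refine ⟨δ, h0, h1, h2, h3, ?_⟩
  constructor
  · intro h n hn
    by_contra hcon
    have := k3.2 ⟨n, hn, hcon⟩
    linarith
  · intro h
    by_contra hcon
    have h5 : 0 < δ' := by
      rw [e]
      have := lt_of_le_of_ne h1 hcon
      linarith
    obtain ⟨n, hn, hn'⟩ := k3.1 h5
    exact hn' (h n hn)

open Classical in
/-- bounded functionals -/
theorem fcl' {P : ℕ → Prop} (hP : ∀ n, 1 ≤ n → (P n ↔ P (T n))) {δ : ℝ} (hδ : HasDensity P δ)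
    (Ω : Type) [MeasurableSpace Ω] (P' : Measure Ω) [IsProbabilityMeasure P'] (B : ℝ≥0 → Ω → ℝ)
    (hBM : IsBrownianReal B P') {a : ℝ} (ha : 0 < a) (ha1 : a < 1) (F : (ℝ → ℝ) → ℝ)
    (hb : ∃ M : ℝ, ∀ f, |F f| ≤ M)
    (hu : ∀ ε : ℝ, 0 < ε → ∃ η : ℝ, 0 < η ∧
      ∀ f g : ℝ → ℝ, (∀ s, 0 ≤ s → s ≤ a → |f s - g s| ≤ η) → |F f - F g| ≤ ε) :
    Tendsto (fun N : ℕ => (∑ n ∈ (Icc 1 N).filter (fun n => P n), F (pathT n)) / N) atTop
      (𝓝 (δ * ∫ ω, F (fun s => B s.toNNReal ω) ∂P')) := by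
  obtain ⟨M, hM⟩ := hb
  set K : ℝ := |M| + 1 with hK
  have hK0 : 0 < K := by positivity
  have hA : AdmT (1 - (1 - a)) (fun f => F f / K) := by
    have ea : 1 - (1 - a) = a := by ring
    rw [ea]
    constructor
    · intro f
      rw [abs_div, abs_of_pos hK0, div_le_one hK0]
      have := hM f
      have := le_abs_self M
      linarith
    · intro ε hε
      obtain ⟨η, hη, h⟩ := hu (ε * K) (by positivity)
      refine ⟨η, hη, fun f g hfg => ?_⟩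
      rw [← sub_div, abs_div, abs_of_pos hK0, div_le_iff₀ hK0]
      exact h f g hfg
  have h1 := (fcl P hP δ hδ Ω P' B hBM (1 - a) (by linarith) (by linarith) _ hA).const_mul K
  have e1 : K * (δ * (∫ ω, F (fun s => B s.toNNReal ω) / K ∂P')) = δ * ∫ ω, F (fun s => B s.toNNReal ω) ∂P' := by
    rw [integral_div]
    field_simp
  rw [e1] at h1
  refine h1.congr (fun N => ?_)
  rw [← Finset.sum_filter, ← Finset.sum_div]
  field_simp

/-- the criterion -/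
theorem crit (hTB : S_TUB2) {f : ℝ → ℝ} (hf : ContinuousOn f (Set.Icc 0 1)) (hf0 : f 0 = 0) {a ε : ℝ} (ha : 0 < a)
    (ha1 : a < 1) (hε : 0 < ε) {P : ℕ → Prop} (hP : ∀ n, 1 ≤ n → (P n ↔ P (T n)))
    (hr : ∀ η : ℝ, 0 < η → ∃ᶠ N : ℕ in atTop,
      ({n : ℕ | 1 ≤ n ∧ n ≤ N ∧ (P n ∧ Fol f a ε n)}.ncard : ℝ) ≤ η * N) : ∀ n, 1 ≤ n → ¬ P n := by
  obtain ⟨δ, h0, h1, h2, h3, _⟩ := dens hP
  obtain ⟨c, hc, h⟩ := cnt hTB f hf hf0 (1 - a) ε (by linarith) (by linarith) hε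
  have h4 := h P hP δ h2
  have ea : 1 - (1 - a) = a := by ring
  rw [ea] at h4
  have h5 : ¬ 0 < δ := by
    intro hδ
    have h6 := hr (c * δ / 2) (by positivity)
    obtain ⟨N, hN, hN1, hN2⟩ := (h6.and_eventually (h4.and (eventually_ge_atTop 1))).exists
    have hN0 : (0 : ℝ) < N := by exact_mod_cast hN2
    have h7 : c * δ * N ≤ c * δ / 2 * N := hN1.trans hN
    have h8 : 0 < c * δ * N := by positivity
    nlinarith
  intro n hn hPn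
  exact h5 (h3.2 ⟨n, hn, hPn⟩)

end Pool.Agent.H55.BZ
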