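import Pool.Agent.H55.BZ.Stm

/-!
# Project BZ: control of the path in the blocks (proof of `S_CTL`), after `DK/CTRL.lean`
-/

set_option autoImplicit false

namespace Pool.Agent.H55.BZ.CTL

open Pool.Agent.H499R2.ND Finset Filter Topology
open Pool.Agent.TH977.IP (Sy ex)
open Pool.Agent.H319R2.Lln (mu)
open Pool.Agent.Results.MP_f7abf1_nt.BlockLaw (T Syr wait oddCount iter_cast wait_cast count_cls)
open Pool.Agent.H55.DK
open Pool.Agent.H55.DK.CTRL (PB_le Yn_sub oddCount_eq oddCount_le ev_cond log43_lo log43_hi two_mu)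

theorem main (hSTAGE : DK.S_STAGE) (hPULL : DK.S_PULL) (hCOUNT : DK.S_COUNT) : S_CTL := by
  intro ε η κ hε hη hκ hκ4
  obtain ⟨C, t0, hC, ht0, hstage⟩ := hSTAGE
  -- the choice of `r₀`
  have hlim : Tendsto (fun r : ℕ => 4 * (r : ℝ) * Real.exp (1 - ε ^ 2 * r / 128)) atTop (𝓝 0) := by
    have h1 : Tendsto (fun x : ℝ => x ^ 1 * Real.exp (-(ε ^ 2 / 128) * x)) atTop (𝓝 0) := by
      have h2 := isLittleO_pow_exp_pos_mul_atTop (k := 1) (b := ε ^ 2 / 128) (by positivity)
      have h3 := h2.tendsto_div_nhds_zero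
      refine h3.congr fun x => ?_
      rw [div_eq_mul_inv, ← Real.exp_neg]
      congr 2
      ring
    have h4 := (h1.comp tendsto_natCast_atTop_atTop).const_mul (4 * Real.exp 1)
    rw [mul_zero] at h4
    refine h4.congr fun r => ?_
    simp only [Function.comp_apply, pow_one]
    rw [show (1 : ℝ) - ε ^ 2 * r / 128 = 1 + -(ε ^ 2 / 128) * r by ring, Real.exp_add]
    ring
  obtain ⟨r₁, hr₁⟩ := (hlim.eventually_lt_const (show (0 : ℝ) < η / 8 by positivity)).exists_forall_of_atTop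
  refine ⟨max (max r₁ ⌈48 / κ⌉₊) 1, lt_of_lt_of_le one_pos (le_max_right _ _), ?_⟩
  intro r hr
  have hr1 : r₁ ≤ r := (le_max_left _ _).trans ((le_max_left _ _).trans hr)
  have hr2 : 48 / κ ≤ r := by
    have h1 : ⌈48 / κ⌉₊ ≤ r := (le_max_right _ _).trans ((le_max_left _ _).trans hr)
    exact (Nat.le_ceil _).trans (by exact_mod_cast h1)
  have hr0 : 0 < r := lt_of_lt_of_le one_pos ((le_max_right _ _).trans hr)
  have hrR : (0 : ℝ) < r := by exact_mod_cast hr0
  have hrexp := hr₁ r hr1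
  set η₁ : ℝ := η / (16 * r) with hη₁
  have hη₁0 : 0 < η₁ := by positivity
  set E : ℝ := 4 * Real.exp (1 - ε ^ 2 * r / 128) with hE
  have hE0 : 0 < E := by positivity
  obtain ⟨L0, hpull⟩ := hPULL κ η₁ hκ (by linarith) hη₁0
  have hcount1 := hCOUNT (κ / 8) (E + η₁ + η₁) (by positivity) (by linarith) (by positivity)
  have hlog : Tendsto (fun X : ℕ => Real.log X) atTop atTop :=
    Real.tendsto_log_atTop.comp tendsto_natCast_atTop_atTop
  have hcond := hlog.eventually (ev_cond (C := C) r L0 t0 0 hε hκ hη₁0 hr0)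
  filter_upwards [hcount1, hcond] with X hc1 hc3 b hb hb1 hb2
  obtain ⟨c1, c2, c3, c4, c5, c6, c7, c8, c9⟩ := hc3
  set L : ℝ := Real.log X with hL
  have hL0 : 0 < L := by linarith
  set w : ℝ := ε * Real.sqrt L with hw
  have hsL : Real.sqrt L ^ 2 = L := Real.sq_sqrt hL0.le
  have hsL0 : 0 < Real.sqrt L := Real.sqrt_pos.2 hL0
  have hw0 : 0 < w := by positivity
  have hw2 : w ^ 2 = ε ^ 2 * L := by rw [hw, mul_pow, hsL]
  have hbR : (0 : ℝ) < b := by exact_mod_cast hb
  have hlo := log43_lo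
  have hhi := log43_hi
  have hl0 : 0 < Real.log (4 / 3) := by linarith
  -- bounds for `b`
  have hb3 : (r : ℝ) * b ≤ 4 * L := by
    have h1 : (r : ℝ) * b * (1 / 4) ≤ r * b * Real.log (4 / 3) := by gcongr
    have h2 : 0 ≤ κ * L := by positivity
    linarith
  have hb4 : L ≤ (r : ℝ) * b := by
    have h1 : (r : ℝ) * b * Real.log (4 / 3) ≤ r * b * (1 / 3) := by gcongr
    have h2 : κ * L ≤ 1 / 4 * L := mul_le_mul_of_nonneg_right hκ4 hL0.le
    have h3 : 0 < (r : ℝ) * b := by positivity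
    linarith
  have hsb : Real.sqrt L ≤ b := by
    have h1 : (r : ℝ) ≤ Real.sqrt L := Real.le_sqrt_of_sq_le c2
    have h2 : (r : ℝ) * Real.sqrt L ≤ r * b := by
      calc (r : ℝ) * Real.sqrt L ≤ Real.sqrt L * Real.sqrt L := by gcongr
        _ = L := by rw [← sq, hsL]
        _ ≤ r * b := hb4
    exact le_of_mul_le_mul_left h2 hrR
  have hbκ : (b : ℝ) ≤ κ * L / 12 := by
    have h1 : 48 ≤ r * κ := by rwa [div_le_iff₀ hκ] at hr2
    have h2 : 48 * (b : ℝ) ≤ κ * (4 * L) := by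
      calc 48 * (b : ℝ) ≤ r * κ * b := by gcongr
        _ = κ * (r * b) := by ring
        _ ≤ κ * (4 * L) := by gcongr
    linarith
  -- `lam`
  set lam : ℝ := w / (8 * b) with hlam
  have hlam0 : 0 ≤ lam := by positivity
  have hlam4 : lam ≤ 1 / 4 := by
    rw [hlam, div_le_iff₀ (by positivity)]
    have h1 : r * w ≤ r * (2 * b) := by
      calc r * w = 2 * (ε * r / 2) * Real.sqrt L := by rw [hw]; ring
        _ ≤ 2 * Real.sqrt L * Real.sqrt L := by gcongr
        _ = 2 * L := by rw [mul_assoc, ← sq, hsL]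
        _ ≤ 2 * (r * b) := by linarith
        _ = r * (2 * b) := by ring
    have h2 := le_of_mul_le_mul_left h1 hrR
    linarith
  have hlam2 : lam ≤ ε * r / (8 * Real.sqrt L) := by
    rw [hlam, div_le_div_iff₀ (by positivity) (by positivity)]
    calc w * (8 * Real.sqrt L) = 8 * ε * Real.sqrt L ^ 2 := by rw [hw]; ring
      _ = 8 * ε * L := by rw [hsL]
      _ ≤ 8 * ε * (r * b) := by gcongr
      _ = ε * r * (8 * b) := by ring
  have hmuK : ∀ i : ℕ, i ≤ r → 2 * mu * ((i * b : ℕ) : ℝ) ≤ (1 - κ) * L := by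
    intro i hi
    rw [two_mu]
    push_cast
    have hi' : (i : ℝ) ≤ r := by exact_mod_cast hi
    calc Real.log (4 / 3) * (i * b) ≤ Real.log (4 / 3) * (r * b) := by gcongr
      _ = r * b * Real.log (4 / 3) := by ring
      _ ≤ (1 - κ) * L := hb2
  have hK : ∀ i : ℕ, (i * b = 0 ∨ Real.sqrt L ≤ ((i * b : ℕ) : ℝ)) := by
    intro i
    rcases Nat.eq_zero_or_pos i with h | h
    · left
      rw [h, zero_mul]
    · right
      push_cast
      have hi : (1 : ℝ) ≤ i := by exact_mod_cast h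
      calc Real.sqrt L ≤ b := hsb
        _ = 1 * b := (one_mul _).symm
        _ ≤ i * b := by gcongr
  -- the blocks
  have hblock : ∀ i < r, oddCount X (fun n => ∃ j ≤ b, w < |((Yn n (i * b + j) - Yn n (i * b) : ℤ) : ℝ)|) ≤
      (E + η₁ + η₁) * X := by
    intro i hi
    set S : Set ℤ := {M : ℤ | ∃ j ≤ b, w < |((Yz M j : ℤ) : ℝ)|} with hS
    have hcnt : oddCount X (fun n => ∃ j ≤ b, w < |((Yn n (i * b + j) - Yn n (i * b) : ℤ) : ℝ)|) =
        ((cls {M : ℤ | (Sy 1)^[i * b] M ∈ S} 0 (X + 1) 0 1 0).card : ℝ) := by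
      refine count_cls X fun n _ => ?_
      show (∃ j ≤ b, w < |((Yz ((Sy 1)^[i * b] (n : ℤ)) j : ℤ) : ℝ)|) ↔ _
      simp_rw [iter_cast, ← Yn_sub]
    rw [hcnt]
    refine hc1 _ fun A hA hlA => ?_
    refine hpull L c1 S (E + η₁) (by positivity) (i * b) (hK i) (hmuK i hi.le) ?_ A hA (by
      have : κ / 8 * L = κ * L / 8 := by ring
      rw [← this]
      exact hlA)
    intro A' hA' hlA' m hm
    rw [abs_le] at hlA'
    have hmu := hmuK i hi.le
    have hmu0 : 0 ≤ 2 * mu * ((i * b : ℕ) : ℝ) := by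
      rw [two_mu]
      positivity
    have ht : 3 / 4 * κ * L ≤ Real.log A' := by linarith [hlA'.1]
    have htu : Real.log A' ≤ 2 * L := by
      have h1 : κ * L ≤ 1 / 4 * L := mul_le_mul_of_nonneg_right hκ4 hL0.le
      linarith [hlA'.2]
    have ht0' : 0 < Real.log A' := lt_of_lt_of_le (by positivity) ht
    have hy : Real.log A' ^ (1 / 4 : ℝ) ≤ (2 * L) ^ (1 / 4 : ℝ) :=
      Real.rpow_le_rpow ht0'.le htu (by norm_num)
    have h := hstage A' hA' (c4.trans ht) b (by linarith) lam w hlam0 hlam4 (by linarith) m hm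
    refine PB_le hA' subset_rfl ?_ h
    have h1 : 4 * Real.exp (2 * lam ^ 2 * (b + 2 * Real.log A' ^ (1 / 4 : ℝ) + 1) - lam * w / 2) ≤ E := by
      rw [hE]
      refine mul_le_mul_of_nonneg_left ?_ (by norm_num)
      rw [Real.exp_le_exp]
      have h2 : 2 * lam ^ 2 * (b + 2 * Real.log A' ^ (1 / 4 : ℝ) + 1) - lam * w / 2 =
          -(w ^ 2 / (32 * b)) + 2 * lam ^ 2 * (2 * Real.log A' ^ (1 / 4 : ℝ) + 1) := by
        rw [hlam]
        field_simp
        ring
      rw [h2]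
      have h3 : 2 * lam ^ 2 * (2 * Real.log A' ^ (1 / 4 : ℝ) + 1) ≤ 1 := by
        refine le_trans ?_ c8
        gcongr
      have h4 : ε ^ 2 * r / 128 ≤ w ^ 2 / (32 * b) := by
        rw [hw2, div_le_div_iff₀ (by norm_num) (by positivity)]
        calc ε ^ 2 * r * (32 * b) = 32 * ε ^ 2 * (r * b) := by ring
          _ ≤ 32 * ε ^ 2 * (4 * L) := by gcongr
          _ = ε ^ 2 * L * 128 := by ring
      linarith
    have h5 : C / Real.log A' ^ 2 ≤ η₁ := by
      refine le_trans ?_ c9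
      gcongr
    linarith
  -- the union bound
  have hun := oddCount_le X r (fun n => ¬ Ct w r b n) (fun _ => False)
    (fun i n => ∃ j ≤ b, w < |((Yn n (i * b + j) - Yn n (i * b) : ℤ) : ℝ)|) (by
    intro n _ h
    left
    unfold Ct at h
    push Not at h
    obtain ⟨i, hi, j, hj, h1⟩ := h
    exact ⟨i, hi, j, hj, h1⟩)
  have hF : oddCount X (fun _ => False) = 0 := by
    rw [oddCount_eq]
    simp
  have hsum : ∑ i ∈ range r, oddCount X
      (fun n => ∃ j ≤ b, w < |((Yn n (i * b + j) - Yn n (i * b) : ℤ) : ℝ)|) ≤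
      r * ((E + η₁ + η₁) * X) := by
    calc _ ≤ ∑ _i ∈ range r, (E + η₁ + η₁) * (X : ℝ) :=
          Finset.sum_le_sum fun i hi => hblock i (Finset.mem_range.1 hi)
      _ = _ := by simp
  have hX0 : (0 : ℝ) ≤ X := Nat.cast_nonneg X
  rw [hF, add_zero] at hun
  refine hun.trans (hsum.trans ?_)
  have h1 : r * E ≤ η / 8 := by
    have : 4 * (r : ℝ) * Real.exp (1 - ε ^ 2 * r / 128) = r * E := by rw [hE]; ring
    linarith
  have h2 : r * η₁ = η / 16 := by
    rw [hη₁]
    field_simp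
  calc r * ((E + η₁ + η₁) * X) = (r * E + r * η₁ + r * η₁) * X := by
        ring
    _ ≤ (η / 8 + η / 16 + η / 16) * X := by
        refine mul_le_mul_of_nonneg_right ?_ hX0
        linarith
    _ ≤ η * X := by
        refine mul_le_mul_of_nonneg_right ?_ hX0
        linarith

end Pool.Agent.H55.BZ.CTL
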