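import Pool.Agent.H55.BZ.Stm

/-!
# Project BZ: the trajectory is close to the step function of the block sums (adapted from `DK/DET.lean`)
-/

set_option autoImplicit false

namespace Pool.Agent.H55.BZ.DETT

open Finset Filter Topology MeasureTheory ProbabilityTheory
open Pool.Agent.Results.MP_f7abf1_nt.BlockLaw (T Syr wait oddCount HasDensity)
open Pool.Agent.H55.UL (slow log_tendsto sqrt_diff log43_lo log43_hi log2_hi log43_eq)
open Pool.Agent.H55.DK (Yn Yn_zero stp)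
open Pool.Agent.H55.DK.DET (bt stp_eq scaled)
open Pool.Agent.H55.DK.CPATH (E E_nonneg syr_pos)

theorem osc {m r b : ℕ} {w : ℝ} (hb : 0 < b) (hw : 0 ≤ w) (hctl : Ct w r b m) {j : ℕ} (hj : j ≤ r * b) :
    |((Yn m j : ℤ) : ℝ) - ((Yn m (bt r b j * b) : ℤ) : ℝ)| ≤ w := by
  unfold bt
  rcases hj.lt_or_eq with h | h
  · have h2 : j / b < r := by rwa [Nat.div_lt_iff_lt_mul hb]
    rw [min_eq_left h2.le]
    have h3 := hctl (j / b) h2 (j % b) (Nat.mod_lt j hb).le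
    rw [Nat.div_add_mod' j b] at h3
    push_cast at h3
    exact h3
  · subst h
    rw [Nat.mul_div_cancel _ hb, min_self, sub_self, abs_zero]
    exact hw

theorem grid {m r b : ℕ} {w : ℝ} (hctl : Ct w r b m) (i d : ℕ) (h : i + d ≤ r) :
    |((Yn m ((i + d) * b) : ℤ) : ℝ) - ((Yn m (i * b) : ℤ) : ℝ)| ≤ d * w := by
  induction d with
  | zero => simp
  | succ d ih =>
    have h4 := ih (by omega)
    have h5 := hctl (i + d) (by omega) b le_rfl
    rw [show (i + d) * b + b = (i + (d + 1)) * b by ring] at h5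
    push_cast at h5 ⊢
    have h6 : ((Yn m ((i + (d + 1)) * b) : ℤ) : ℝ) - ((Yn m (i * b) : ℤ) : ℝ) =
      (((Yn m ((i + (d + 1)) * b) : ℤ) : ℝ) - ((Yn m ((i + d) * b) : ℤ) : ℝ)) +
      (((Yn m ((i + d) * b) : ℤ) : ℝ) - ((Yn m (i * b) : ℤ) : ℝ)) := by ring
    rw [h6]
    refine (abs_add_le _ _).trans ?_
    linarith

/-- two grid points -/
theorem grid2 {m r b : ℕ} {w : ℝ} (hw : 0 ≤ w) (hctl : Ct w r b m) {i i' : ℕ} (h : i ≤ r) (h' : i' ≤ r) (h1 : i ≤ i' + 1)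
    (h2 : i' ≤ i + 1) : |((Yn m (i * b) : ℤ) : ℝ) - ((Yn m (i' * b) : ℤ) : ℝ)| ≤ w := by
  rcases lt_trichotomy i i' with h3 | h3 | h3
  · obtain rfl : i' = i + 1 := by omega
    rw [abs_sub_comm]
    have := grid hctl i 1 h'
    simpa using this
  · subst h3
    simpa using hw
  · obtain rfl : i = i' + 1 := by omega
    have := grid hctl i' 1 h
    simpa using this

theorem bound {m r b : ℕ} {w : ℝ} (hb : 0 < b) (hw : 0 ≤ w) (hctl : Ct w r b m) {j : ℕ} (hj : j ≤ r * b) :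
    |((Yn m j : ℤ) : ℝ)| ≤ (r + 1) * w := by
  have h1 := osc hb hw hctl hj
  have h2 := grid hctl 0 (bt r b j) (by rw [zero_add]; exact min_le_right _ _)
  rw [zero_add, zero_mul, Yn_zero] at h2
  have h3 : ((bt r b j : ℕ) : ℝ) ≤ r := by exact_mod_cast min_le_right _ _
  have h4 : ((bt r b j : ℕ) : ℝ) * w ≤ r * w := mul_le_mul_of_nonneg_right h3 hw
  have h5 : ((Yn m j : ℤ) : ℝ) = (((Yn m j : ℤ) : ℝ) - ((Yn m (bt r b j * b) : ℤ) : ℝ)) +
    (((Yn m (bt r b j * b) : ℤ) : ℝ) - ((0 : ℤ) : ℝ)) := by push_cast; ring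
  rw [h5]
  refine (abs_add_le _ _).trans ?_
  linarith

theorem incr {m r b : ℕ} {w : ℝ} (hb : 0 < b) (hw : 0 ≤ w) (hctl : Ct w r b m) {j : ℕ} (hj : j + 1 ≤ r * b) :
    |((Yn m (j + 1) - Yn m j : ℤ) : ℝ)| ≤ 3 * w := by
  have h1 := osc hb hw hctl (show j ≤ r * b by omega)
  have h2 := osc hb hw hctl hj
  have h3 : |((Yn m (bt r b (j + 1) * b) : ℤ) : ℝ) - ((Yn m (bt r b j * b) : ℤ) : ℝ)| ≤ w := by
    have a1 : j / b ≤ (j + 1) / b := Nat.div_le_div_right (Nat.le_succ j)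
    have a2 : (j + 1) / b ≤ j / b + 1 := by
      have : (j + 1) / b ≤ (j + b) / b := Nat.div_le_div_right (by omega)
      rwa [Nat.add_div_right _ hb] at this
    apply grid2 hw hctl (min_le_right _ _) (min_le_right _ _) <;> omega
  push_cast
  have h6 : ((Yn m (j + 1) : ℤ) : ℝ) - ((Yn m j : ℤ) : ℝ) =
      (((Yn m (j + 1) : ℤ) : ℝ) - ((Yn m (bt r b (j + 1) * b) : ℤ) : ℝ)) +
      ((((Yn m (bt r b (j + 1) * b) : ℤ) : ℝ) - ((Yn m (bt r b j * b) : ℤ) : ℝ)) +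
      (((Yn m (bt r b j * b) : ℤ) : ℝ) - ((Yn m j : ℤ) : ℝ))) := by ring
  rw [h6]
  rw [abs_sub_comm] at h1
  refine (abs_add_le _ _).trans ?_
  have := abs_add_le (((Yn m (bt r b (j + 1) * b) : ℤ) : ℝ) - ((Yn m (bt r b j * b) : ℤ) : ℝ))
      (((Yn m (bt r b j * b) : ℤ) : ℝ) - ((Yn m j : ℤ) : ℝ))
  linarith

/-- the odd terms are large -/
theorem big {m r b : ℕ} {w M B : ℝ} (hm : m % 2 = 1) (hb : 0 < b) (hw : 0 ≤ w) (hctl : Ct w r b m)
    (hM : (r + 1) * w ≤ M) (hB : 0 < B) (h : Real.log B ≤ Real.log m - r * b * Real.log (4 / 3) - M)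
    {i : ℕ} (hi : i ≤ r * b) : B ≤ ((Syr^[i] m : ℕ) : ℝ) := by
  have h0 := E_nonneg hm i
  unfold E at h0
  have hS : ((UL.S m i : ℕ) : ℝ) = 2 * i - ((Yn m i : ℤ) : ℝ) := by
    unfold Yn
    push_cast
    ring
  rw [hS] at h0
  have h1 := abs_le.1 ((bound hb hw hctl hi).trans hM)
  have h2 : Real.log (4 / 3) = 2 * Real.log 2 - Real.log 3 := log43_eq
  have hl2 : Real.log 2 ≤ 1 := log2_hi
  have hl2' : 0 ≤ Real.log 2 := Real.log_nonneg (by norm_num)
  have hq := log43_lo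
  have hM0 : 0 ≤ M := by
    have : 0 ≤ ((r : ℝ) + 1) * w := by positivity
    linarith
  have h5 : (i : ℝ) * Real.log (4 / 3) ≤ r * b * Real.log (4 / 3) := by
    apply mul_le_mul_of_nonneg_right _ (by linarith)
    exact_mod_cast hi
  have h6 : -M ≤ ((Yn m i : ℤ) : ℝ) * Real.log 2 := by nlinarith
  have h4 : Real.log B ≤ Real.log ((Syr^[i] m : ℕ) : ℝ) := by
    have h7 : (i : ℝ) * Real.log (4 / 3) = 2 * i * Real.log 2 - i * Real.log 3 := by rw [h2]; ring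
    have h8 : (2 * (i : ℝ) - ((Yn m i : ℤ) : ℝ)) * Real.log 2 = 2 * i * Real.log 2 - ((Yn m i : ℤ) : ℝ) * Real.log 2 := by
      ring
    rw [h8] at h0
    linarith
  have hpos : (0 : ℝ) < ((Syr^[i] m : ℕ) : ℝ) := by exact_mod_cast syr_pos hm i
  exact (Real.log_le_log_iff hB hpos).1 h4

/-- the deterministic comparison -/
theorem comp (hD : S_CDT) {m v r G b : ℕ} {w M D L s : ℝ} (hm : m % 2 = 1) (hb : 0 < b) (hr : 0 < r) (hw : 0 ≤ w)
    (hctl : Ct w r b m) (hM : (r + 1) * w ≤ M)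
    (hL : |Real.log ((2 ^ v * m : ℕ) : ℝ) - L| ≤ D) (hb1 : |L / Real.log (4 / 3) - G * b| ≤ G)
    (hs0 : 0 ≤ s) (hs1 : s ≤ 1) (hlarge : ∀ i ≤ r * b, r * b ≤ Syr^[i] m)
    (hend : s * (2 * Real.log ((2 ^ v * m : ℕ) : ℝ) / Real.log (4 / 3)) + M + 2 ≤ 2 * (r * b))
    (hbig : (v + 3 + 2 * M) / 2 + 1 / 2 + 4 * D + G ≤ b) :
    |devT (2 ^ v * m) ⌊s * (2 * Real.log ((2 ^ v * m : ℕ) : ℝ) / Real.log (4 / 3))⌋₊ - Real.log 3 / 2 *
      ((Yn m (min ⌊s * G⌋₊ r * b) : ℤ) : ℝ)| ≤ 5 * w + (v + 10) := by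
  have hc1 : Real.log 3 / 2 ≤ 1 := by
    have h1 : Real.log 3 ≤ Real.log (2 ^ (2 : ℕ)) := Real.log_le_log (by norm_num) (by norm_num)
    rw [Real.log_pow] at h1
    have := Real.log_two_lt_d9
    push_cast at h1
    linarith
  have hc0 : 0 ≤ Real.log 3 / 2 := by
    have := Real.log_nonneg (show (1 : ℝ) ≤ 3 by norm_num)
    linarith
  set c : ℝ := Real.log 3 / 2 with hcd
  have hqlo := log43_lo
  have hqhi := log43_hi
  set q := Real.log (4 / 3) with hq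
  have hqpos : 0 < q := by linarith
  set ln := Real.log ((2 ^ v * m : ℕ) : ℝ) with hln
  have hln0 : 0 ≤ ln := Real.log_natCast_nonneg _
  have hv : (0 : ℝ) ≤ v := Nat.cast_nonneg v
  have hG : (0 : ℝ) ≤ G := Nat.cast_nonneg G
  obtain ⟨J, hJ⟩ : ∃ J, r * b = J + 1 := ⟨r * b - 1, by have := Nat.mul_pos hr hb; omega⟩
  have hJR : (r : ℝ) * b = J + 1 := by exact_mod_cast hJ
  have hYM : ∀ j ≤ r * b, |((Yn m j : ℤ) : ℝ)| ≤ M := fun j hj => (bound hb hw hctl hj).trans hM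
  have hM0 : 0 ≤ M := (abs_nonneg _).trans (hYM 0 (Nat.zero_le _))
  set x : ℝ := s * (2 * ln / q) with hx
  have hx0 : 0 ≤ x := by positivity
  set k := ⌊x⌋₊ with hkd
  have hkx : (k : ℝ) ≤ x := Nat.floor_le hx0
  have hkx' : x < k + 1 := Nat.lt_floor_add_one _
  have hkv : k ≤ v + UL.S m J := by
    have h1 : ((UL.S m J : ℕ) : ℝ) = 2 * J - ((Yn m J : ℤ) : ℝ) := by
      unfold Yn
      push_cast
      ring
    have h2 := (abs_le.1 (hYM J (by omega))).2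
    have h3 : (k : ℝ) ≤ v + ((UL.S m J : ℕ) : ℝ) := by
      rw [h1]
      rw [hJR] at hend
      linarith
    exact_mod_cast h3
  obtain ⟨j, hjJ, h1, h2⟩ := hD v m J hm (fun i hi => by
    have := hlarge i (by omega)
    omega) k hkv
  have hinc := incr hb hw hctl (show j + 1 ≤ r * b by omega)
  have h3 : |devT (2 ^ v * m) k - c * (Yn m j : ℤ)| ≤ 3 * w + (v + 10) := h1.trans (add_le_add hinc le_rfl)
  -- the position
  have hpos : |(j : ℝ) - s * G * b| ≤ b := by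
    have a1 : |(k : ℝ) - 2 * j| ≤ v + 3 + 2 * M := by
      refine h2.trans ?_
      have := hYM j (by omega)
      have := hYM (j + 1) (by omega)
      linarith
    have a2 : |(k : ℝ) - x| ≤ 1 := by
      rw [abs_le]
      constructor <;> linarith
    have a3 : |x / 2 - s * (L / q)| ≤ 4 * D := by
      have e1 : x / 2 - s * (L / q) = s * ((ln - L) / q) := by
        rw [hx]
        field_simp
      rw [e1, abs_mul, abs_of_nonneg hs0]
      have h6 : |(ln - L) / q| ≤ 4 * D := by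
        rw [abs_div, abs_of_pos hqpos, div_le_iff₀ hqpos]
        have h7 : 0 ≤ D := (abs_nonneg _).trans hL
        nlinarith
      have h7 : 0 ≤ |(ln - L) / q| := abs_nonneg _
      nlinarith
    have a4 : |s * (L / q) - s * (G * b)| ≤ G := by
      rw [← mul_sub, abs_mul, abs_of_nonneg hs0]
      have h6 : 0 ≤ |L / q - G * b| := abs_nonneg _
      nlinarith
    have b1 := abs_le.1 a1
    have b2 := abs_le.1 a2
    have b3 := abs_le.1 a3
    have b4 := abs_le.1 a4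
    rw [abs_le]
    constructor <;> linarith
  have hbR : (0 : ℝ) < b := by exact_mod_cast hb
  have hidx : j / b ≤ ⌊s * G⌋₊ + 1 ∧ ⌊s * G⌋₊ ≤ j / b + 1 := by
    have hsG0 : 0 ≤ s * G := by positivity
    have c1 := abs_le.1 hpos
    constructor
    · have h4 : ((j / b : ℕ) : ℝ) ≤ (j : ℝ) / b := Nat.cast_div_le
      have h5 : (j : ℝ) / b ≤ s * G + 1 := by
        rw [div_le_iff₀ hbR]
        linarith
      have h6 : s * G < ⌊s * G⌋₊ + 1 := Nat.lt_floor_add_one _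
      have h7 : ((j / b : ℕ) : ℝ) < ((⌊s * G⌋₊ + 2 : ℕ) : ℝ) := by
        push_cast
        linarith
      have : j / b < ⌊s * G⌋₊ + 2 := by exact_mod_cast h7
      omega
    · have h4 : (⌊s * G⌋₊ : ℝ) ≤ s * G := Nat.floor_le hsG0
      have h5 : s * G ≤ (j : ℝ) / b + 1 := by
        rw [← sub_le_iff_le_add, le_div_iff₀ hbR]
        linarith
      have h6 : (j : ℝ) / b < ((j / b : ℕ) : ℝ) + 1 := by
        rw [div_lt_iff₀ hbR]
        have : j < (j / b + 1) * b := by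
          have h8 := Nat.div_add_mod j b
          have h9 := Nat.mod_lt j hb
          nlinarith
        exact_mod_cast this
      have h7 : ((⌊s * G⌋₊ : ℕ) : ℝ) < ((j / b + 2 : ℕ) : ℝ) := by
        push_cast
        linarith
      have : ⌊s * G⌋₊ < j / b + 2 := by exact_mod_cast h7
      omega
  have hY : |((Yn m j : ℤ) : ℝ) - ((Yn m (min ⌊s * G⌋₊ r * b) : ℤ) : ℝ)| ≤ 2 * w := by
    have h4 := osc hb hw hctl (show j ≤ r * b by omega)
    have h5 : |((Yn m (bt r b j * b) : ℤ) : ℝ) - ((Yn m (min ⌊s * G⌋₊ r * b) : ℤ) : ℝ)| ≤ w := by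
      unfold bt
      apply grid2 hw hctl (min_le_right _ _) (min_le_right _ _) <;> omega
    have h6 : ((Yn m j : ℤ) : ℝ) - ((Yn m (min ⌊s * G⌋₊ r * b) : ℤ) : ℝ) =
      (((Yn m j : ℤ) : ℝ) - ((Yn m (bt r b j * b) : ℤ) : ℝ)) +
      (((Yn m (bt r b j * b) : ℤ) : ℝ) - ((Yn m (min ⌊s * G⌋₊ r * b) : ℤ) : ℝ)) := by ring
    rw [h6]
    refine (abs_add_le _ _).trans ?_
    linarith
  have hYc : |c * ((Yn m j : ℤ) : ℝ) - c * ((Yn m (min ⌊s * G⌋₊ r * b) : ℤ) : ℝ)| ≤ 2 * w := by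
    rw [← mul_sub, abs_mul, abs_of_nonneg hc0]
    have h6 := abs_nonneg (((Yn m j : ℤ) : ℝ) - ((Yn m (min ⌊s * G⌋₊ r * b) : ℤ) : ℝ))
    nlinarith
  have d1 := abs_le.1 h3
  have d2 := abs_le.1 hYc
  rw [abs_le]
  constructor <;> linarith

end Pool.Agent.H55.BZ.DETT
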