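import Pool.Agent.H55.DK.All
import Pool.Agent.H55.DK.ERR

/-!
# Project BZ (MP_edb5be_nt): shape and fate of the trajectories are independent

For EVERY set `P` of positive integers which is invariant under `T` (`n ∈ P ↔ T n ∈ P`; for example the integers whose
trajectories enter a given cycle, or those with a divergent trajectory): the rescaled trajectory
`s ↦ devT n ⌊s · 2 log n / log (4/3)⌋ / scaleT n`, `0 ≤ s ≤ 1 - κ`, of the `n ≤ N` in `P` converges in law to Brownian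
motion. Definitions and stubs. Everything is an adaptation of project DK (`Pool/Agent/H55/DK`, the same for the `n` which
reach `1`).
-/

set_option autoImplicit false

namespace Pool.Agent.H55.BZ

open Finset Filter Topology MeasureTheory ProbabilityTheory
open scoped NNReal
open Pool.Agent.H55.DK (Yn stp oddSum)
open Pool.Agent.H499R2.ND.TJ (PP)
open Pool.Agent.Results.MP_f7abf1_nt.BlockLaw (T Syr wait blocks Admissible prob oddCount HasDensity)

/-- deviation of `T^k n` -/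
noncomputable def devT (n k : ℕ) : ℝ := Real.log (T^[k] n : ℕ) - Real.log n + k / 2 * Real.log (4 / 3)

/-- scale -/
noncomputable def scaleT (n : ℕ) : ℝ := Real.log 3 / 2 * Real.sqrt (2 * Real.log n / Real.log (4 / 3))

/-- the rescaled trajectory, in units of the expected time `2 log n / log (4/3)` -/
noncomputable def pathT (n : ℕ) (s : ℝ) : ℝ := devT n ⌊s * (2 * Real.log n / Real.log (4 / 3))⌋₊ / scaleT n

/-- bounded by `1` and uniformly continuous in the sup norm on `[0, a]` -/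
def AdmT (a : ℝ) (F : (ℝ → ℝ) → ℝ) : Prop := (∀ f, |F f| ≤ 1) ∧ ∀ ε : ℝ, 0 < ε → ∃ η : ℝ, 0 < η ∧
  ∀ f g : ℝ → ℝ, (∀ s, 0 ≤ s → s ≤ a → |f s - g s| ≤ η) → |F f - F g| ≤ ε

/-- control inside the blocks -/
def Ct (w : ℝ) (r b n : ℕ) : Prop := ∀ i < r, ∀ j ≤ b, |((Yn n (i * b + j) - Yn n (i * b) : ℤ) : ℝ)| ≤ w

/-- BZ-CTL: the part of `DK.CTRL.main` (`Pool/Agent/H55/DK/CTRL.lean`) about the blocks (`hblock`); no tail, so that
`κ₀` is not needed, any `κ ≤ 1/4`. (copy, delete the tail; hypotheses `S_STAGE`, `S_PULL`, `S_COUNT` are proved: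
`STAGE.main (COMP.main ERR.main) MEM.main WMAX.main`, `PULL.main (COMP.main ERR.main) MEM.main`, `COUNT.main`,
see `All.lean`) -/
def S_CTL : Prop := ∀ ε η κ : ℝ, 0 < ε → 0 < η → 0 < κ → κ ≤ 1 / 4 →
  ∃ r₀ : ℕ, 0 < r₀ ∧ ∀ r : ℕ, r₀ ≤ r → ∀ᶠ X : ℕ in atTop, ∀ b : ℕ, 0 < b →
    (1 - 2 * κ) * Real.log X ≤ r * b * Real.log (4 / 3) → r * b * Real.log (4 / 3) ≤ (1 - κ) * Real.log X →
    oddCount X (fun n => ¬ Ct (ε * Real.sqrt (Real.log X)) r b n) ≤ η * X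

open Classical in
/-- BZ-TVP: `DK.S_TV` (`Pool/Agent/H55/DK/TV.lean`) with an arbitrary invariant `P` in the place of `UL.R`
(`BlockLaw.result.1 P hP` in the place of `BlockLaw.result.1 R (fun _ _ => R_T)`). -/
def S_TVP : Prop := ∀ P : ℕ → Prop, (∀ n, 1 ≤ n → (P n ↔ P (T n))) → ∀ δ : ℝ, HasDensity P δ →
  ∀ κ ε : ℝ, 0 < κ → 0 < ε → ∀ᶠ X : ℕ in atTop, ∀ r b : ℕ,
  κ * Real.log X ≤ b → ((r * b : ℕ) : ℝ) ≤ (1 - κ) * Real.log X / Real.log (4 / 3) →
  ∀ Φ : (Fin r → ℕ) → ℝ, (∀ v, 0 ≤ Φ v ∧ Φ v ≤ 1) →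
  |oddSum X (fun m => if P m then Φ (blocks (fun i => i * b) r (wait m)) else 0) -
    δ / 2 * (∫ ω : ℕ → ℕ, Φ (blocks (fun i => i * b) r (fun j => ω j + 1)) ∂PP) * X| ≤ ε * X

/-- BZ-CDT: all terms of the trajectory of `T` up to the `J`-th odd term, if these odd terms are `≥ J`. Compare
`DK/CDEV.lean`, `DK/CPATH.lean` (the same for the Collatz map `C`): with `E m j` as in `CPATH.lean`
(`0 ≤ E m j ≤ ∑_{i<j} 1 / Syr^i m ≤ 1`, `CPATH.E_nonneg`, `CPATH.E_le_sum`) one has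
`devT (2^v m) (v + S m j) = log 3 / 2 * Yn m j + E m j - v * log 3 / 2` (`UL.T_two`, `UL.T_S`; `log (4/3) = 2 log 2 - log 3`),
and for `1 ≤ s ≤ wait m j` the term at the time `v + S m j + s` is `(3 x + 1) / 2^s`, `x = Syr^j m` (`UL.T_block`); for
`k ≤ v` the deviation is `- k log 3 / 2`, take `j = 0`. `UL.S_succ`: `S m (j+1) = S m j + wait m j`, and
`wait m j = 2 - (Yn m (j+1) - Yn m j)`. -/
def S_CDT : Prop := ∀ v m J : ℕ, m % 2 = 1 → (∀ i < J, J ≤ Syr^[i] m) → ∀ k ≤ v + UL.S m J, ∃ j ≤ J,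
    |devT (2 ^ v * m) k - Real.log 3 / 2 * (Yn m j : ℤ)| ≤ |((Yn m (j + 1) - Yn m j : ℤ) : ℝ)| + (v + 10) ∧
    |(k : ℝ) - 2 * j| ≤ v + 3 + |((Yn m j : ℤ) : ℝ)| + |((Yn m (j + 1) : ℤ) : ℝ)|

/-- BZ-DETT (helper55): from `S_CDT`; compare `DK/DET.lean`, `DK/DET2.lean` -/
def S_DETT : Prop := ∀ η : ℝ, 0 < η → ∃ e : ℝ, 0 < e ∧ ∀ κ : ℝ, 0 < κ → κ < 1 → ∀ g h v : ℕ, 4 / κ ≤ g → 0 < h →
  ∀ θ : ℝ, 0 < θ → ∀ᶠ X : ℕ in atTop, ∀ b : ℕ, b = ⌊Real.log X / Real.log (4 / 3) / (g * h : ℕ)⌋₊ → ∀ m : ℕ, m ≤ X →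
    θ * X ≤ m → m % 2 = 1 → Ct (e * Real.sqrt (Real.log X)) ((g - 1) * h) b m → ∀ s : ℝ, 0 ≤ s → s ≤ 1 - κ →
    |pathT (2 ^ v * m) s - stp (g * h) (fun i : Fin ((g - 1) * h) =>
      ((Yn m (((i : ℕ) + 1) * b) - Yn m ((i : ℕ) * b) : ℤ) : ℝ) / Real.sqrt (2 * (g * h : ℕ) * b)) s| ≤ η

open Classical in
/-- BZ-FCL (helper55): from `S_CTL`, `S_TVP`, `S_DETT` and `DK.S_SUM`, `DK.S_WALK`, `DK.S_BM` -/
def S_FCL : Prop := ∀ P : ℕ → Prop, (∀ n, 1 ≤ n → (P n ↔ P (T n))) → ∀ δ : ℝ, HasDensity P δ →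
  ∀ (Ω : Type) [MeasurableSpace Ω] (P' : Measure Ω) [IsProbabilityMeasure P'] (B : ℝ≥0 → Ω → ℝ),
  IsBrownianReal B P' → ∀ κ : ℝ, 0 < κ → κ < 1 → ∀ F : (ℝ → ℝ) → ℝ, AdmT (1 - κ) F →
  Tendsto (fun N : ℕ => (∑ n ∈ Icc 1 N, if P n then F (pathT n) else 0) / N) atTop
    (𝓝 (δ * ∫ ω, F (fun s => B s.toNNReal ω) ∂P'))

/-- BZ-TUBE: Wiener measure has full support. `F` is any functional which is `≥ 0`, and `≥ 1` on the tube of radius
`ε` around the continuous function `f`. PROOF: (i) Measurability of `F ∘ B` is not needed if one uses `DK.S_BM`: the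
integral is the limit of `∫ F (stp (g h) v) dγ` over the product `γ` of normal laws, so that it is enough to bound these
from below by a constant `c > 0` for all large `g`; choose `h g = 1` (in `S_BM` any `h` with `0 < h g` is allowed).
(ii) So: for all large `g`, `γ {v | ∀ k ≤ g - 1, |v_0 + ... + v_{k-1} - f (k / g)| ≤ ε / 2} ≥ c`, `v_i` independent
`N(0, 1/g)` (then `|stp g v s - f s| ≤ ε` on `[0,1-1/g]`, and up to `1` as well, by uniform continuity of `f`).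
(iii) Replace `f` by a `K`-Lipschitz function (error `ε / 8`). Fix `G₀` large; cells `[i / G₀, (i+1) / G₀]`. Claim: if the
error at the beginning of a cell is `≤ ε / 8`, then with probability `≥ 1 / 8` the error at the end of the cell is `≤ ε / 8`
and inside the cell all errors are `≤ ε / 2`: the increment of the cell is about `N(0, 1/G₀)` and has to be in an interval
of length `ε / 4` at distance `≤ K / G₀` from `0` (probability near `1/2` at least), and by Kolmogorov's (or Doob's)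
inequality the partial sums in the cell are larger than `ε / 8` with probability at most `64 / (ε² G₀)`. Independence of
the cells gives `c = 8 ^ (- G₀ - 1)`. -/
def S_TUBE : Prop := ∀ (Ω : Type) [MeasurableSpace Ω] (P : Measure Ω) [IsProbabilityMeasure P] (B : ℝ≥0 → Ω → ℝ),
  IsBrownianReal B P → ∀ f : ℝ → ℝ, ContinuousOn f (Set.Icc 0 1) → f 0 = 0 → ∀ ε : ℝ, 0 < ε →
  ∀ F : (ℝ → ℝ) → ℝ, DK.Adm F → (∀ w, 0 ≤ F w) → (∀ w : ℝ → ℝ, (∀ s, 0 ≤ s → s ≤ 1 → |w s - f s| ≤ ε) → 1 ≤ F w) →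
  0 < ∫ ω, F (fun s => B s.toNNReal ω) ∂P

end Pool.Agent.H55.BZ
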