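import Pool.Agent.H55.DK.BM
import Pool.Agent.H55.BZ.Stm

/-! BZ-TUBE (helper19): Wiener measure has full support, by Levy's decomposition into the interpolation at the nodes
and the (independent) bridges. -/

set_option autoImplicit false

namespace Pool.Agent.H55.BZ.TUBE

open Finset Filter Topology MeasureTheory ProbabilityTheory
open scoped NNReal
open Pool.Agent.H55.DK (stp Adm)
open Pool.Agent.H55.DK.BM (gt gt_coe gt_mono inc law_inc stp_inc time_close cont_F)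

/-- the bridge -/
noncomputable def br {Ω : Type} (B : ℝ≥0 → Ω → ℝ) (n : ℕ) (t : ℝ≥0) (ω : Ω) : ℝ :=
  B t ω - (1 - ((t : ℝ) * n - (⌊(t : ℝ) * n⌋₊ : ℝ))) * B (gt n ⌊(t : ℝ) * n⌋₊) ω -
    ((t : ℝ) * n - (⌊(t : ℝ) * n⌋₊ : ℝ)) * B (gt n (⌊(t : ℝ) * n⌋₊ + 1)) ω

lemma indep {Ω : Type} [MeasurableSpace Ω] {P : Measure Ω} {B : ℝ≥0 → Ω → ℝ}
    (hB : IsPreBrownianReal B P) {n : ℕ} (hn : 0 < n) :
    IndepFun (fun ω (j : ℕ) => B (gt n j) ω) (fun ω (t : ℝ≥0) => br B n t ω) P := by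
  have := hB.isGaussianProcess.isProbabilityMeasure
  have mX t := hB.aemeasurable t
  have hL2 : ∀ t, MemLp (B t) 2 P := fun t => (hB.isGaussianProcess.hasGaussianLaw_eval t).memLp_two
  have hn' : (0 : ℝ) < n := by exact_mod_cast hn
  apply IsGaussianProcess.indepFun_of_covariance_eq_zero
  · apply hB.isGaussianProcess.of_isGaussianProcess
    rintro (j | t)
    · exact ⟨{gt n j},
        { toFun x := x ⟨gt n j, by simp⟩
          map_add' x y := by simp
          map_smul' c x := by simp }, by simp⟩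
    · refine ⟨{t, gt n ⌊(t : ℝ) * n⌋₊, gt n (⌊(t : ℝ) * n⌋₊ + 1)},
        { toFun x := x ⟨t, by simp⟩ - (1 - ((t : ℝ) * n - (⌊(t : ℝ) * n⌋₊ : ℝ))) *
              x ⟨gt n ⌊(t : ℝ) * n⌋₊, by simp⟩ -
            ((t : ℝ) * n - (⌊(t : ℝ) * n⌋₊ : ℝ)) * x ⟨gt n (⌊(t : ℝ) * n⌋₊ + 1), by simp⟩
          map_add' x y := by simp only [Pi.add_apply]; ring
          map_smul' c x := by simp only [Pi.smul_apply, smul_eq_mul, RingHom.id_apply]; ring }, ?_⟩
      intro ω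
      rfl
  · intro j; exact mX _
  · intro t
    unfold br
    exact ((mX _).sub ((mX _).const_mul _)).sub ((mX _).const_mul _)
  · intro j t
    have e1 : cov[B (gt n j), br B n t; P] = (min (gt n j) t : ℝ≥0) -
        (1 - ((t : ℝ) * n - (⌊(t : ℝ) * n⌋₊ : ℝ))) * (min (gt n j) (gt n ⌊(t : ℝ) * n⌋₊) : ℝ≥0) -
        ((t : ℝ) * n - (⌊(t : ℝ) * n⌋₊ : ℝ)) * (min (gt n j) (gt n (⌊(t : ℝ) * n⌋₊ + 1)) : ℝ≥0) := by
      have e2 : br B n t = (B t - (1 - ((t : ℝ) * n - (⌊(t : ℝ) * n⌋₊ : ℝ))) •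
          B (gt n ⌊(t : ℝ) * n⌋₊)) -
          ((t : ℝ) * n - (⌊(t : ℝ) * n⌋₊ : ℝ)) • B (gt n (⌊(t : ℝ) * n⌋₊ + 1)) := rfl
      rw [e2, covariance_sub_right (hL2 _) ((hL2 _).sub ((hL2 _).const_smul _))
        ((hL2 _).const_smul _), covariance_sub_right (hL2 _) (hL2 _) ((hL2 _).const_smul _),
        covariance_smul_right, covariance_smul_right, hB.covariance_eval,
        hB.covariance_eval, hB.covariance_eval]
    rw [e1]
    obtain ⟨k, hk⟩ : ∃ k : ℕ, k = ⌊(t : ℝ) * n⌋₊ := ⟨_, rfl⟩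
    rw [← hk]
    have hk1 : (k : ℝ) ≤ (t : ℝ) * n := by rw [hk]; exact Nat.floor_le (by positivity)
    have hk2 : (t : ℝ) * n < k + 1 := by rw [hk]; exact Nat.lt_floor_add_one _
    have c1 : gt n k ≤ t := by
      rw [← NNReal.coe_le_coe, gt_coe, div_le_iff₀ hn']; exact hk1
    have c2 : t ≤ gt n (k + 1) := by
      rw [← NNReal.coe_le_coe, gt_coe, le_div_iff₀ hn']; push_cast; exact hk2.le
    rcases Nat.lt_or_ge k j with h | h
    · have d1 : gt n (k + 1) ≤ gt n j := gt_mono n (by omega)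
      have d2 : gt n k ≤ gt n j := gt_mono n (by omega)
      rw [min_eq_right (c2.trans d1), min_eq_right d2, min_eq_right d1, gt_coe, gt_coe]
      push_cast
      field_simp
      ring
    · have d1 : gt n j ≤ gt n (k + 1) := gt_mono n (by omega)
      have d2 : gt n j ≤ gt n k := gt_mono n (by omega)
      rw [min_eq_left (d2.trans c1), min_eq_left d2, min_eq_left d1]
      ring

lemma gauss_pos {v : ℝ≥0} (hv : v ≠ 0) {a b : ℝ} (hab : a < b) :
    0 < gaussianReal 0 v (Set.Ioo a b) := by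
  rw [pos_iff_ne_zero]
  intro h
  have h1 := gaussianReal_absolutelyContinuous' 0 hv h
  rw [Real.volume_Ioo, ENNReal.ofReal_eq_zero] at h1
  linarith

/-- the values at the nodes are close to given values with positive probability -/
lemma nodes_pos {Ω : Type} [MeasurableSpace Ω] {P : Measure Ω} [IsProbabilityMeasure P]
    {B : ℝ≥0 → Ω → ℝ} (hB : IsPreBrownianReal B P) {n : ℕ} (hn : 0 < n) (r : ℕ) (c : ℕ → ℝ)
    (hc : c 0 = 0) {η : ℝ} (hη : 0 < η) :
    0 < P {ω | ∀ j ≤ r, |B (gt n j) ω - c j| ≤ η} := by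
  obtain ⟨e, he⟩ : ∃ e : ℝ, e = η / (r + 1) := ⟨_, rfl⟩
  have he0 : 0 < e := by rw [he]; positivity
  obtain ⟨U, hU⟩ : ∃ U : Fin r → Set ℝ, U = fun i : Fin r => Set.Ioo (c ((i : ℕ) + 1) - c i - e)
      (c ((i : ℕ) + 1) - c i + e) := ⟨_, rfl⟩
  have hm : AEMeasurable (fun ω (i : Fin r) => inc B n i ω) P :=
    aemeasurable_pi_lambda _ fun i => (hB.aemeasurable _).sub (hB.aemeasurable _)
  have h1 : 0 < P ((fun ω (i : Fin r) => inc B n i ω) ⁻¹' (Set.pi Set.univ U)) := by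
    rw [← Measure.map_apply_of_aemeasurable hm
      (MeasurableSet.univ_pi fun i => by rw [hU]; exact measurableSet_Ioo),
      law_inc hB hn, Measure.pi_pi]
    rw [pos_iff_ne_zero, Finset.prod_ne_zero_iff]
    intro i _
    rw [hU]
    refine (gauss_pos ?_ (by linarith)).ne'
    have : (0 : ℝ≥0) < n := by exact_mod_cast hn
    positivity
  refine lt_of_lt_of_le h1 (measure_mono_ae ?_)
  filter_upwards [hB.eval_zero_ae_eq_zero] with ω h0 hω
  have hω' : (fun i : Fin r => inc B n i ω) ∈ Set.pi Set.univ U := hω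
  rw [Set.mem_univ_pi] at hω'
  have h2 : ∀ j ≤ r, |B (gt n j) ω - c j| ≤ j * e := by
    intro j
    induction j with
    | zero =>
      intro _
      have hz : gt n 0 = 0 := by unfold gt; simp
      rw [hz, h0, hc]
      simp
    | succ j ih =>
      intro hj
      have h3 := ih (by omega)
      have h4 := hω' ⟨j, by omega⟩
      rw [hU] at h4
      unfold inc at h4
      simp only [Set.mem_Ioo] at h4
      rw [abs_le] at h3 ⊢
      push_cast
      constructor <;> linarith [h3.1, h3.2, h4.1, h4.2]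
  intro j hj
  refine (h2 j hj).trans ?_
  have : (j : ℝ) ≤ r := by exact_mod_cast hj
  calc (j : ℝ) * e ≤ (r + 1) * e := mul_le_mul_of_nonneg_right (by linarith) he0.le
    _ = η := by rw [he]; field_simp

/-- measurability of the functional -/
lemma aesm {Ω : Type} [MeasurableSpace Ω] {P : Measure Ω} [IsProbabilityMeasure P]
    {B : ℝ≥0 → Ω → ℝ} (hB : IsBrownianReal B P) {F : (ℝ → ℝ) → ℝ} (hF : Adm F) :
    AEStronglyMeasurable (fun ω => F (fun s => B s.toNNReal ω)) P := by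
  refine aestronglyMeasurable_of_tendsto_ae atTop
    (f := fun (g : ℕ) ω => F (stp (g * 1) (fun i : Fin ((g - 1) * 1) => inc B (g * 1) i ω))) ?_ ?_
  · intro g
    have hm : AEMeasurable (fun ω (i : Fin ((g - 1) * 1)) => inc B (g * 1) i ω) P :=
      aemeasurable_pi_lambda _ fun i => (hB.aemeasurable _).sub (hB.aemeasurable _)
    exact ((cont_F hF (g * 1) ((g - 1) * 1)).measurable.comp_aemeasurable hm).aestronglyMeasurable
  · filter_upwards [hB.cont, hB.eval_zero_ae_eq_zero] with ω hc h0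
    rw [Metric.tendsto_atTop]
    intro ε hε
    obtain ⟨η, hη, hη2⟩ := hF.2 (ε / 2) (by positivity)
    have huc : UniformContinuousOn (fun t : ℝ => B t.toNNReal ω) (Set.Icc 0 1) :=
      isCompact_Icc.uniformContinuousOn_of_continuous
        ((hc.comp continuous_real_toNNReal).continuousOn)
    rw [Metric.uniformContinuousOn_iff] at huc
    obtain ⟨d, hd, hd2⟩ := huc η hη
    obtain ⟨N, hN⟩ := exists_nat_gt (1 / d)
    refine ⟨N + 1, fun g hg => ?_⟩
    have hg0 : 0 < g := by omega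
    have hg' : (0 : ℝ) < g := by exact_mod_cast hg0
    have hgd : 1 / (g : ℝ) < d := by
      rw [div_lt_iff₀ hg']
      have : (N : ℝ) + 1 ≤ g := by exact_mod_cast hg
      rw [div_lt_iff₀ hd] at hN
      nlinarith
    rw [Real.dist_eq]
    refine lt_of_le_of_lt (hη2 _ _ fun s hs0 hs1 => ?_) (by linarith)
    rw [stp_inc B _ _ ω hs0]
    have hz : gt (g * 1) 0 = 0 := by unfold gt; simp
    rw [hz, h0, sub_zero]
    obtain ⟨τ, hτ⟩ : ∃ τ : ℝ≥0, τ = gt (g * 1) (min ⌊s * ((g * 1 : ℕ) : ℝ)⌋₊ ((g - 1) * 1)) :=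
      ⟨_, rfl⟩
    have hclose := time_close (h := 1) hg0 one_pos hs0 hs1
    rw [← hτ] at hclose ⊢
    have hτ1 : (τ : ℝ) ≤ 1 := by
      have hG0 : (0 : ℝ) < ((g * 1 : ℕ) : ℝ) := by
        exact_mod_cast Nat.mul_pos hg0 one_pos
      rw [hτ, gt_coe, div_le_one hG0]
      have : min ⌊s * ((g * 1 : ℕ) : ℝ)⌋₊ ((g - 1) * 1) ≤ g * 1 :=
        (min_le_right _ _).trans (Nat.mul_le_mul_right _ (Nat.sub_le _ _))
      exact_mod_cast this
    have h2 := hd2 (τ : ℝ) ⟨τ.coe_nonneg, hτ1⟩ s ⟨hs0, hs1⟩ (by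
      rw [Real.dist_eq]
      exact lt_of_le_of_lt hclose hgd)
    rw [Real.dist_eq] at h2
    simp only [Real.toNNReal_coe] at h2
    exact h2.le

/-- interpolation -/
lemma interp {x y z u e : ℝ} {n k : ℕ} {t : ℝ} (hk : k = ⌊t * n⌋₊) (ht : 0 ≤ t) (hx : |z - x| ≤ e)
    (hy : |z - y| ≤ e) (hu : u = z - (1 - (t * n - (k : ℝ))) * x - (t * n - (k : ℝ)) * y) : |u| ≤ e := by
  have hk1 : (k : ℝ) ≤ t * n := by rw [hk]; exact Nat.floor_le (by positivity)
  have hk2 : t * n < k + 1 := by rw [hk]; exact Nat.lt_floor_add_one _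
  obtain ⟨a, ha⟩ : ∃ a : ℝ, a = t * n - k := ⟨_, rfl⟩
  rw [← ha] at hu
  have ha0 : 0 ≤ a := by rw [ha]; linarith
  have ha1 : a ≤ 1 := by rw [ha]; linarith
  have e1 : u = (1 - a) * (z - x) + a * (z - y) := by rw [hu]; ring
  rw [abs_le] at hx hy ⊢
  have b1 : (1 - a) * (-e) ≤ (1 - a) * (z - x) := mul_le_mul_of_nonneg_left hx.1 (by linarith)
  have b2 : (1 - a) * (z - x) ≤ (1 - a) * e := mul_le_mul_of_nonneg_left hx.2 (by linarith)
  have b3 : a * (-e) ≤ a * (z - y) := mul_le_mul_of_nonneg_left hy.1 ha0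
  have b4 : a * (z - y) ≤ a * e := mul_le_mul_of_nonneg_left hy.2 ha0
  rw [e1]
  constructor <;> linarith

/-- a continuous function oscillates little between neighbouring nodes -/
lemma osc {φ : ℝ → ℝ} (hφ : Continuous φ) {e : ℝ} (he : 0 < e) : ∃ N : ℕ, ∀ n : ℕ, N < n →
    ∀ t : ℝ≥0, t < 2 → |φ t - φ (gt n ⌊(t : ℝ) * n⌋₊)| ≤ e ∧
      |φ t - φ (gt n (⌊(t : ℝ) * n⌋₊ + 1))| ≤ e := by
  have huc : UniformContinuousOn φ (Set.Icc 0 3) :=
    isCompact_Icc.uniformContinuousOn_of_continuous hφ.continuousOn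
  rw [Metric.uniformContinuousOn_iff] at huc
  obtain ⟨d, hd, hd2⟩ := huc e he
  obtain ⟨N, hN⟩ := exists_nat_gt (1 / d)
  refine ⟨N + 1, fun n hn t ht => ?_⟩
  have hn' : (0 : ℝ) < n := by
    have : 0 < n := by omega
    exact_mod_cast this
  have hn1 : (1 : ℝ) < n := by
    have : 1 < n := by omega
    exact_mod_cast this
  have hnd : 1 / (n : ℝ) < d := by
    rw [div_lt_iff₀ hn']
    have : (N : ℝ) + 1 < n := by exact_mod_cast hn
    rw [div_lt_iff₀ hd] at hN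
    nlinarith
  have ht' : (t : ℝ) < 2 := by exact_mod_cast ht
  have ht0 : (0 : ℝ) ≤ t := t.coe_nonneg
  obtain ⟨k, hk⟩ : ∃ k : ℕ, k = ⌊(t : ℝ) * n⌋₊ := ⟨_, rfl⟩
  rw [← hk]
  have hk1 : (k : ℝ) ≤ (t : ℝ) * n := by rw [hk]; exact Nat.floor_le (by positivity)
  have hk2 : (t : ℝ) * n < k + 1 := by rw [hk]; exact Nat.lt_floor_add_one _
  have g1 : ((gt n k : ℝ≥0) : ℝ) = k / n := gt_coe n k
  have g2 : ((gt n (k + 1) : ℝ≥0) : ℝ) = (k + 1) / n := by rw [gt_coe]; push_cast; rfl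
  have l1 : (k : ℝ) / n ≤ t := by rw [div_le_iff₀ hn']; exact hk1
  have l2 : (t : ℝ) ≤ (k + 1) / n := by rw [le_div_iff₀ hn']; exact hk2.le
  have l3 : ((k : ℝ) + 1) / n = k / n + 1 / n := by ring
  have l4 : (0 : ℝ) ≤ k / n := by positivity
  have l5 : 1 / (n : ℝ) ≤ 1 := by rw [div_le_one hn']; exact hn1.le
  rw [g1, g2]
  constructor
  · have := hd2 t ⟨ht0, by linarith⟩ (k / n) ⟨l4, by linarith⟩ (by
      rw [Real.dist_eq, abs_lt]; constructor <;> linarith)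
    rw [Real.dist_eq] at this
    exact this.le
  · have := hd2 t ⟨ht0, by linarith⟩ ((k + 1) / n) ⟨by rw [l3]; positivity, by linarith⟩ (by
      rw [Real.dist_eq, abs_lt]; constructor <;> linarith)
    rw [Real.dist_eq] at this
    exact this.le

theorem main : S_TUBE := by
  intro Ω _ P _ B hB f hf hf0 ε hε F hF hF0 hF1
  obtain ⟨φ, hφ, hφf⟩ : ∃ φ : ℝ → ℝ, Continuous φ ∧ ∀ s, 0 ≤ s → s ≤ 1 → φ s = f s :=
    ⟨Set.IccExtend (zero_le_one' ℝ) (Set.domRestrict (Set.Icc 0 1) f),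
      (continuousOn_iff_continuous_domRestrict.1 hf).Icc_extend', fun s h0 h1 => by
        rw [Set.IccExtend_of_mem _ _ (⟨h0, h1⟩ : s ∈ Set.Icc (0 : ℝ) 1)]
        rfl⟩
  have hφ0 : φ 0 = 0 := by rw [hφf 0 le_rfl zero_le_one, hf0]
  obtain ⟨N0, hN0⟩ := osc hφ (e := ε / 4) (by positivity)
  obtain ⟨D, hD⟩ : ∃ D : ℕ → ℝ≥0, DenseRange D := ⟨_, TopologicalSpace.denseRange_denseSeq ℝ≥0⟩
  obtain ⟨S, hS⟩ : ∃ S : Set (ℝ≥0 → ℝ), S = ⋂ i : ℕ, ⋂ _ : D i < 2, {y | |y (D i)| ≤ ε / 4} :=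
    ⟨_, rfl⟩
  have hSm : MeasurableSet S := by
    rw [hS]
    refine MeasurableSet.iInter fun i => MeasurableSet.iInter fun _ => ?_
    exact measurableSet_le (by fun_prop) measurable_const
  have hSi : ∀ y : ℝ≥0 → ℝ, y ∈ S ↔ ∀ i, D i < 2 → |y (D i)| ≤ ε / 4 := by
    intro y
    rw [hS, Set.mem_iInter]
    refine forall_congr' fun i => ?_
    rw [Set.mem_iInter]
    rfl
  obtain ⟨n, hn, hpos⟩ : ∃ n : ℕ, N0 < n ∧ 0 < P ((fun ω (t : ℝ≥0) => br B n t ω) ⁻¹' S) := by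
    by_contra hcon
    push Not at hcon
    have h1 : ∀ᵐ ω ∂P, ∀ n : ℕ, N0 < n → ω ∉ (fun ω (t : ℝ≥0) => br B n t ω) ⁻¹' S := by
      rw [ae_all_iff]
      intro n
      rcases Nat.lt_or_ge N0 n with h | h
      · filter_upwards [measure_eq_zero_iff_ae_notMem.1 (le_antisymm (hcon n h) bot_le)] with ω hω _
        exact hω
      · exact Eventually.of_forall fun ω h' => absurd h' (by omega)
    have h2 : ∀ᵐ ω ∂P, False := by
      filter_upwards [h1, hB.cont] with ω h1 hc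
      obtain ⟨N1, hN1⟩ := osc (φ := fun t : ℝ => B t.toNNReal ω)
        (hc.comp continuous_real_toNNReal) (e := ε / 4) (by positivity)
      have hlt : N1 < max N0 N1 + 1 := Nat.lt_succ_of_le (le_max_right _ _)
      refine h1 (max N0 N1 + 1) (Nat.lt_succ_of_le (le_max_left _ _)) ?_
      rw [Set.mem_preimage, hSi]
      intro i hi
      obtain ⟨h3, h4⟩ := hN1 (max N0 N1 + 1) hlt (D i) hi
      simp only [Real.toNNReal_coe] at h3 h4
      exact interp rfl (D i).coe_nonneg h3 h4 rfl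
    have h3 := h2.exists
    obtain ⟨_, h⟩ := h3
    exact h
  have hn0 : 0 < n := by omega
  have hn' : (0 : ℝ) < n := by exact_mod_cast hn0
  obtain ⟨A, hA⟩ : ∃ A : Set (ℕ → ℝ), A = ⋂ j : ℕ, ⋂ _ : j ≤ 2 * n + 1,
      {x | |x j - φ (gt n j)| ≤ ε / 4} := ⟨_, rfl⟩
  have hAm : MeasurableSet A := by
    rw [hA]
    refine MeasurableSet.iInter fun i => MeasurableSet.iInter fun _ => ?_
    exact measurableSet_le (by fun_prop) measurable_const
  have hAi : ∀ x : ℕ → ℝ, x ∈ A ↔ ∀ j ≤ 2 * n + 1, |x j - φ (gt n j)| ≤ ε / 4 := by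
    intro y
    rw [hA, Set.mem_iInter]
    refine forall_congr' fun i => ?_
    rw [Set.mem_iInter]
    rfl
  have hApos : 0 < P ((fun ω (j : ℕ) => B (gt n j) ω) ⁻¹' A) := by
    have h1 := nodes_pos hB.toIsPreBrownianReal hn0 (2 * n + 1) (fun j => φ (gt n j)) (by
      have hz : gt n 0 = 0 := by unfold gt; simp
      simp only [hz, NNReal.coe_zero, hφ0]) (η := ε / 4) (by positivity)
    refine lt_of_lt_of_le h1 (measure_mono fun ω hω => ?_)
    rw [Set.mem_preimage, hAi]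
    exact hω
  have hE : 0 < P ((fun ω (j : ℕ) => B (gt n j) ω) ⁻¹' A ∩ (fun ω (t : ℝ≥0) => br B n t ω) ⁻¹' S) := by
    rw [(indep hB.toIsPreBrownianReal hn0).measure_inter_preimage_eq_mul A S hAm hSm]
    exact ENNReal.mul_pos hApos.ne' hpos.ne'
  have hint : Integrable (fun ω => F (fun s => B s.toNNReal ω)) P :=
    Integrable.mono' (integrable_const (1 : ℝ)) (aesm hB hF)
      (Eventually.of_forall fun ω => by rw [Real.norm_eq_abs]; exact hF.1 _)
  rw [integral_pos_iff_support_of_nonneg (fun ω => hF0 _) hint]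
  refine lt_of_lt_of_le hE (measure_mono_ae ?_)
  filter_upwards [hB.cont] with ω hc hω
  obtain ⟨hωA, hωS⟩ : ω ∈ (fun ω (j : ℕ) => B (gt n j) ω) ⁻¹' A ∧
    ω ∈ (fun ω (t : ℝ≥0) => br B n t ω) ⁻¹' S := hω
  rw [Set.mem_preimage, hAi] at hωA
  rw [Set.mem_preimage, hSi] at hωS
  have key : ∀ i, D i < 2 → |B (D i) ω - φ (D i)| ≤ ε := by
    intro i hi
    obtain ⟨h1, h2⟩ := hN0 n hn (D i) hi
    have h3 := hωS i hi
    obtain ⟨k, hk⟩ : ∃ k : ℕ, k = ⌊((D i : ℝ≥0) : ℝ) * n⌋₊ := ⟨_, rfl⟩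
    rw [← hk] at h1 h2
    have hk1 : (k : ℝ) ≤ ((D i : ℝ≥0) : ℝ) * n := by
      rw [hk]; exact Nat.floor_le (by positivity)
    have hk2 : k ≤ 2 * n := by
      have h5 : ((D i : ℝ≥0) : ℝ) < 2 := by exact_mod_cast hi
      have : (k : ℝ) ≤ ((2 * n : ℕ) : ℝ) := by
        push_cast
        nlinarith
      exact_mod_cast this
    have h4 := hωA k (by omega)
    have h5 := hωA (k + 1) (by omega)
    have h6 : |φ (D i) - (1 - (((D i : ℝ≥0) : ℝ) * n - (k : ℝ))) * B (gt n k) ω -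
        (((D i : ℝ≥0) : ℝ) * n - (k : ℝ)) * B (gt n (k + 1)) ω| ≤ ε / 2 := by
      refine interp hk (D i).coe_nonneg (x := B (gt n k) ω) (y := B (gt n (k + 1)) ω)
        (z := φ (D i)) ?_ ?_ rfl
      · rw [abs_le] at h1 h4 ⊢
        constructor <;> linarith [h1.1, h1.2, h4.1, h4.2]
      · rw [abs_le] at h2 h5 ⊢
        constructor <;> linarith [h2.1, h2.2, h5.1, h5.2]
    unfold br at h3
    rw [← hk] at h3
    rw [abs_le] at h3 h6 ⊢
    constructor <;> linarith [h3.1, h3.2, h6.1, h6.2]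
  have hcl : IsClosed {t : ℝ≥0 | |B t ω - φ t| ≤ ε} := by
    refine isClosed_le ?_ continuous_const
    exact (hc.sub (hφ.comp NNReal.continuous_coe)).abs
  have hall : Set.Iio (2 : ℝ≥0) ⊆ {t : ℝ≥0 | |B t ω - φ t| ≤ ε} := by
    refine (hD.open_subset_closure_inter isOpen_Iio).trans (closure_minimal ?_ hcl)
    rintro _ ⟨ht, i, rfl⟩
    exact key i ht
  have h1 : 1 ≤ F (fun s => B s.toNNReal ω) := by
    refine hF1 _ fun s hs0 hs1 => ?_
    have h2 : s.toNNReal < 2 := by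
      rw [← NNReal.coe_lt_coe, Real.coe_toNNReal s hs0]
      push_cast
      linarith
    have h3 : |B s.toNNReal ω - φ ((s.toNNReal : ℝ≥0) : ℝ)| ≤ ε := hall h2
    rw [Real.coe_toNNReal s hs0, hφf s hs0 hs1] at h3
    exact h3
  show F (fun s => B s.toNNReal ω) ≠ 0
  linarith

end Pool.Agent.H55.BZ.TUBE
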